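import Mathlib

namespace Pool.Agent.H865Z.Ffi

open Finset Classical

section
variable {β : Type} [Fintype β]

/-- `w` agrees with `w'` off the holes of `w'`. -/
def Agree {n : ℕ} (H : β) (w' w : Fin n → β) : Prop := ∀ u, w' u ≠ H → w u = w' u

noncomputable def kap (H D : β) (b : β) : ℝ :=
  if b = H ∨ b = D then 1 / (4 * (Fintype.card β : ℝ)) else 1 / (Fintype.card β : ℝ)

noncomputable def wt (H D : β) {n : ℕ} (A : Set (Fin n → β)) : ℝ :=
  ∑ w : Fin n → β, if w ∈ A then ∏ u, kap H D (w u) else 0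

def Steerable (H D : β) {n : ℕ} (A : Set (Fin n → β)) : Set (Fin n → β) :=
  {w' | (∀ u, w' u ≠ D) ∧ ∃ w ∈ A, Agree H w' w}

noncomputable def gg (H D : β) {n : ℕ} (A : Set (Fin n → β)) : ℝ :=
  ∑ w' : Fin n → β, if w' ∈ Steerable H D A then (1 / (Fintype.card β : ℝ)) ^ n else 0

lemma kap_nonneg (H D b : β) : 0 ≤ kap H D b := by
  unfold kap; split_ifs <;> positivity

lemma wt_nonneg (H D : β) {n : ℕ} (A : Set (Fin n → β)) : 0 ≤ wt H D A := by
  unfold wt
  refine Finset.sum_nonneg fun w _ => ?_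
  split_ifs
  · exact Finset.prod_nonneg fun u _ => kap_nonneg H D _
  · exact le_rfl

lemma wt_mono (H D : β) {n : ℕ} {A A' : Set (Fin n → β)} (h : A ⊆ A') :
    wt H D A ≤ wt H D A' := by
  unfold wt
  refine Finset.sum_le_sum fun w _ => ?_
  by_cases hw : w ∈ A
  · simp [hw, h hw]
  · simp only [hw, if_false]
    split_ifs
    · exact Finset.prod_nonneg fun u _ => kap_nonneg H D _
    · exact le_rfl

lemma gg_nonneg (H D : β) {n : ℕ} (A : Set (Fin n → β)) : 0 ≤ gg H D A := by
  unfold gg
  refine Finset.sum_nonneg fun w _ => ?_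
  split_ifs
  · positivity
  · exact le_rfl

lemma sum_succ {n : ℕ} (f : (Fin (n + 1) → β) → ℝ) :
    ∑ w, f w = ∑ b : β, ∑ w : Fin n → β, f (Fin.cons b w) := by
  rw [← (Fin.consEquiv (fun _ : Fin (n + 1) => β)).sum_comp, Fintype.sum_prod_type]
  rfl

def sect {n : ℕ} (A : Set (Fin (n + 1) → β)) (b : β) : Set (Fin n → β) :=
  {w | Fin.cons b w ∈ A}

lemma wt_succ (H D : β) {n : ℕ} (A : Set (Fin (n + 1) → β)) :
    wt H D A = ∑ b, kap H D b * wt H D (sect A b) := by
  unfold wt
  rw [sum_succ]
  refine Finset.sum_congr rfl fun b _ => ?_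
  rw [Finset.mul_sum]
  refine Finset.sum_congr rfl fun w _ => ?_
  by_cases hw : Fin.cons b w ∈ A
  · have : w ∈ sect A b := hw
    simp only [hw, this, if_true, Fin.prod_univ_succ, Fin.cons_zero, Fin.cons_succ]
  · have : w ∉ sect A b := hw
    simp [hw, this]

lemma gg_succ (H D : β) {n : ℕ} (A : Set (Fin (n + 1) → β)) :
    ∑ b, (if b = D then 0 else if b = H then gg H D (⋃ c, sect A c) else gg H D (sect A b))
      / (Fintype.card β : ℝ) ≤ gg H D A := by
  conv_rhs => unfold gg
  rw [sum_succ]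
  refine Finset.sum_le_sum fun b _ => ?_
  have hpos : (0 : ℝ) ≤ (1 / (Fintype.card β : ℝ)) ^ (n + 1) := by positivity
  by_cases hD : b = D
  · simp only [hD, if_true, zero_div]
    refine Finset.sum_nonneg fun w _ => ?_
    split_ifs
    · exact hpos
    · exact le_rfl
  have key : ∀ A' : Set (Fin n → β),
      (∀ w' ∈ Steerable H D A', Fin.cons b w' ∈ Steerable H D A) →
      gg H D A' / (Fintype.card β : ℝ) ≤ ∑ w : Fin n → β,
        if Fin.cons b w ∈ Steerable H D A then (1 / (Fintype.card β : ℝ)) ^ (n + 1) else 0 := by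
    intro A' hA'
    unfold gg
    rw [Finset.sum_div]
    refine Finset.sum_le_sum fun w _ => ?_
    by_cases hw : w ∈ Steerable H D A'
    · simp only [hw, hA' w hw, if_true]
      rw [pow_succ]; apply le_of_eq; ring
    · simp only [hw, if_false, zero_div]
      split_ifs
      · exact hpos
      · exact le_rfl
  by_cases hH : b = H
  · simp only [hD, if_false]
    rw [if_pos hH]
    apply key
    rintro w' ⟨h1, w, hw, h2⟩
    obtain ⟨c, hc⟩ := Set.mem_iUnion.1 hw
    refine ⟨?_, Fin.cons c w, hc, ?_⟩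
    · intro u
      refine Fin.cases ?_ (fun u => ?_) u
      · simpa using hD
      · simpa using h1 u
    · intro u
      refine Fin.cases ?_ (fun u => ?_) u
      · intro h; exact absurd (by simpa using hH) h
      · simpa using h2 u
  · simp only [hD, hH, if_false]
    apply key
    rintro w' ⟨h1, w, hw, h2⟩
    refine ⟨?_, Fin.cons b w, hw, ?_⟩
    · intro u
      refine Fin.cases ?_ (fun u => ?_) u
      · simpa using hD
      · simpa using h1 u
    · intro u
      refine Fin.cases ?_ (fun u => ?_) u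
      · intro _; simp
      · simpa using h2 u

/-- The one-step inequality. -/
lemma step_ineq (H D : β) (hHD : H ≠ D) (m : β → ℝ) (M : ℝ) (hm0 : ∀ b, 0 ≤ m b)
    (hmM : ∀ b, m b ≤ M) :
    (∑ b, kap H D b * m b) ^ (1 - 1 / (2 * (Fintype.card β : ℝ))) ≤
      ∑ b, (if b = D then 0 else if b = H then M ^ (1 - 1 / (2 * (Fintype.card β : ℝ)))
        else m b ^ (1 - 1 / (2 * (Fintype.card β : ℝ)))) / (Fintype.card β : ℝ) := by
  have hN : (1 : ℝ) ≤ Fintype.card β := by
    have : 0 < Fintype.card β := Fintype.card_pos_iff.2 ⟨H⟩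
    exact_mod_cast this
  set N : ℝ := (Fintype.card β : ℝ) with hNdef
  have hN0 : 0 < N := by linarith
  set γ : ℝ := 1 - 1 / (2 * N) with hγ
  have hε : 1 / (2 * N) ≤ 1 / 2 := by
    apply one_div_le_one_div_of_le <;> linarith
  have hε0 : 0 < 1 / (2 * N) := by positivity
  have hγ0 : 0 < γ := by linarith
  have hγ1 : γ ≤ 1 := by linarith
  have hM0 : 0 ≤ M := (hm0 H).trans (hmM H)
  have hS0 : 0 ≤ ∑ b, kap H D b * m b :=
    Finset.sum_nonneg fun b _ => mul_nonneg (kap_nonneg H D b) (hm0 b)
  rcases hM0.eq_or_lt with hM | hM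
  · have hz : ∀ b, m b = 0 := fun b => le_antisymm (hM ▸ hmM b) (hm0 b)
    simp only [hz, mul_zero, Finset.sum_const_zero, Real.zero_rpow hγ0.ne']
    refine Finset.sum_nonneg fun b _ => div_nonneg ?_ hN0.le
    split_ifs
    · exact le_rfl
    · exact Real.rpow_nonneg hM0 _
    · exact le_rfl
  -- the regular part
  set R : Finset β := (Finset.univ.erase D).erase H with hR
  have hsplit : ∀ f : β → ℝ, ∑ b, f b = f D + f H + ∑ b ∈ R, f b := by
    intro f
    rw [← Finset.add_sum_erase _ f (Finset.mem_univ D),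
      ← Finset.add_sum_erase _ f (a := H) (by simp [hHD]), add_assoc]
  have hRmem : ∀ b ∈ R, b ≠ H ∧ b ≠ D := by
    intro b hb
    simp only [hR, Finset.mem_erase] at hb
    exact ⟨hb.1, hb.2.1⟩
  set s : ℝ := ∑ b ∈ R, m b / M with hs
  have hs0 : 0 ≤ s := Finset.sum_nonneg fun b _ => div_nonneg (hm0 b) hM.le
  set v : ℝ := (s + 1 / 2) / N with hv
  have hv0 : 0 ≤ v := by positivity
  have h1 : ∑ b, kap H D b * m b ≤ M * v := by
    rw [hsplit]
    have e1 : ∑ b ∈ R, kap H D b * m b = M * s / N := by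
      rw [hs, Finset.mul_sum, Finset.sum_div]
      refine Finset.sum_congr rfl fun b hb => ?_
      have := hRmem b hb
      simp only [kap, this.1, this.2, or_self, if_false, ← hNdef]
      field_simp
    have e2 : kap H D D = 1 / (4 * N) := by simp [kap, hNdef]
    have e3 : kap H D H = 1 / (4 * N) := by simp [kap, hNdef]
    rw [e1, e2, e3, hv]
    have := hmM D
    have := hmM H
    have : 1 / (4 * N) * m D + 1 / (4 * N) * m H ≤ 1 / (4 * N) * M + 1 / (4 * N) * M := by
      gcongr
    calc 1 / (4 * N) * m D + 1 / (4 * N) * m H + M * s / N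
        ≤ 1 / (4 * N) * M + 1 / (4 * N) * M + M * s / N := by linarith
      _ = M * ((s + 1 / 2) / N) := by field_simp; ring
  have h2 : v ^ γ ≤ (1 + s) / N := by
    have hb := rpow_one_add_le_one_add_mul_self (s := v - 1) (p := γ) (by linarith)
      hγ0.le hγ1
    have e : 1 + (v - 1) = v := by ring
    rw [e] at hb
    have e' : (1 + s) / N = v + 1 / (2 * N) := by rw [hv]; field_simp; ring
    rw [e']
    have : 0 ≤ 1 / (2 * N) * v := by positivity
    have e'' : 1 + γ * (v - 1) = v + 1 / (2 * N) - 1 / (2 * N) * v := by rw [hγ]; ring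
    linarith
  have h3 : M ^ γ * ((1 + s) / N) ≤ ∑ b, (if b = D then 0 else if b = H then M ^ γ
        else m b ^ γ) / N := by
    rw [hsplit]
    simp only [if_true, hHD, if_false, zero_div, zero_add]
    have e1 : M ^ γ * ((1 + s) / N) = M ^ γ / N + ∑ b ∈ R, M ^ γ * (m b / M) / N := by
      rw [← Finset.sum_div, ← Finset.mul_sum, ← hs]; ring
    rw [e1]
    refine add_le_add le_rfl (Finset.sum_le_sum fun b hb => ?_)
    have := hRmem b hb
    simp only [this.1, this.2, if_false]
    refine div_le_div_of_nonneg_right ?_ hN0.le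
    have ht0 : 0 ≤ m b / M := div_nonneg (hm0 b) hM.le
    have ht1 : m b / M ≤ 1 := (div_le_one hM).2 (hmM b)
    have ht : m b / M ≤ (m b / M) ^ γ := Real.self_le_rpow_of_le_one ht0 ht1 hγ1
    calc M ^ γ * (m b / M) ≤ M ^ γ * (m b / M) ^ γ :=
          mul_le_mul_of_nonneg_left ht (Real.rpow_nonneg hM.le _)
      _ = (M * (m b / M)) ^ γ := (Real.mul_rpow hM.le ht0).symm
      _ = m b ^ γ := by congr 1; field_simp
  calc (∑ b, kap H D b * m b) ^ γ ≤ (M * v) ^ γ := Real.rpow_le_rpow hS0 h1 hγ0.le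
    _ = M ^ γ * v ^ γ := Real.mul_rpow hM.le hv0
    _ ≤ M ^ γ * ((1 + s) / N) := mul_le_mul_of_nonneg_left h2 (Real.rpow_nonneg hM.le _)
    _ ≤ _ := h3

/-- The counting lemma. -/
lemma wt_rpow_le_gg (H D : β) (hHD : H ≠ D) (n : ℕ) (A : Set (Fin n → β)) :
    wt H D A ^ (1 - 1 / (2 * (Fintype.card β : ℝ))) ≤ gg H D A := by
  have hN : (1 : ℝ) ≤ Fintype.card β := by
    have : 0 < Fintype.card β := Fintype.card_pos_iff.2 ⟨H⟩
    exact_mod_cast this
  have hγ0 : 0 < 1 - 1 / (2 * (Fintype.card β : ℝ)) := by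
    have hε : 1 / (2 * (Fintype.card β : ℝ)) ≤ 1 / 2 := by
      apply one_div_le_one_div_of_le <;> linarith
    linarith
  induction n with
  | zero =>
    unfold wt gg
    simp only [Finset.univ_unique, Finset.sum_singleton, Finset.univ_eq_empty,
      Finset.prod_empty, pow_zero]
    by_cases h : (default : Fin 0 → β) ∈ A
    · have : (default : Fin 0 → β) ∈ Steerable H D A :=
        ⟨fun u => u.elim0, default, h, fun u => u.elim0⟩
      simp [h, this]
    · simp only [h, if_false, Real.zero_rpow hγ0.ne']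
      split_ifs <;> norm_num
  | succ n ih =>
    refine le_trans ?_ (gg_succ H D A)
    rw [wt_succ]
    refine le_trans (step_ineq H D hHD (fun b => wt H D (sect A b)) (wt H D (⋃ c, sect A c))
      (fun b => wt_nonneg H D _) (fun b => wt_mono H D (Set.subset_iUnion (sect A) b))) ?_
    refine Finset.sum_le_sum fun b _ => div_le_div_of_nonneg_right ?_ (by linarith)
    split_ifs
    · exact le_rfl
    · exact ih _
    · exact ih _

/-- Cauchy-Schwarz: the weight of a set of uniform probability at least one half. -/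
lemma wt_lower (H D : β) (hHD : H ≠ D) (n : ℕ) (G : Set (Fin n → β))
    (hG : 1 / 2 ≤ ∑ w : Fin n → β, if w ∈ G then (1 / (Fintype.card β : ℝ)) ^ n else 0) :
    1 / 4 ≤ wt H D G * (1 + 6 / (Fintype.card β : ℝ)) ^ n := by
  have hN : (1 : ℝ) ≤ Fintype.card β := by
    have : 0 < Fintype.card β := Fintype.card_pos_iff.2 ⟨H⟩
    exact_mod_cast this
  set N : ℝ := (Fintype.card β : ℝ) with hNdef
  have hN0 : 0 < N := by linarith
  let kap' : β → ℝ := fun b => if b = H ∨ b = D then 4 / N else 1 / N
  have hk : ∀ b, kap H D b * kap' b = (1 / N) ^ 2 := by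
    intro b
    unfold kap
    simp only [kap']
    split_ifs
    · rw [← hNdef]; field_simp
    · rw [← hNdef]; field_simp
  have hk0 : ∀ b, 0 ≤ kap' b := by
    intro b; simp only [kap']; split_ifs <;> positivity
  have hsum : ∑ b, kap' b = 1 + 6 / N := by
    have : ∀ b, kap' b = 1 / N + ((if b = H then 3 / N else 0) + (if b = D then 3 / N else 0)) := by
      intro b
      simp only [kap']
      by_cases h1 : b = H
      · have h2 : b ≠ D := h1 ▸ hHD
        simp only [h1, true_or, if_true, hHD, if_false]; ring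
      · by_cases h2 : b = D
        · simp only [h2, or_true, if_true, hHD.symm, if_false]; ring
        · simp [h1, h2]
    simp only [this, Finset.sum_add_distrib, Finset.sum_ite_eq', Finset.mem_univ, if_true,
      Finset.sum_const, Finset.card_univ, nsmul_eq_mul, ← hNdef]
    field_simp; ring
  have hprod : ∑ w : Fin n → β, ∏ u, kap' (w u) = (1 + 6 / N) ^ n := by
    rw [← hsum, ← Fintype.piFinset_univ, ← Finset.prod_univ_sum]
    simp
  have hcs := Finset.sum_sq_le_sum_mul_sum_of_sq_le_mul (Finset.univ : Finset (Fin n → β))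
    (r := fun w => if w ∈ G then (1 / N) ^ n else 0)
    (f := fun w => if w ∈ G then ∏ u, kap H D (w u) else 0)
    (g := fun w => ∏ u, kap' (w u))
    (fun w _ => by
      split_ifs
      · exact Finset.prod_nonneg fun u _ => kap_nonneg H D _
      · exact le_rfl)
    (fun w _ => Finset.prod_nonneg fun u _ => hk0 _)
    (fun w _ => by
      by_cases hw : w ∈ G
      · simp only [hw, if_true]
        rw [← Finset.prod_mul_distrib]
        simp only [hk, Finset.prod_const, Finset.card_univ, Fintype.card_fin]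
        rw [← pow_mul, ← pow_mul, mul_comm]
      · simp [hw])
  rw [hprod] at hcs
  unfold wt
  refine le_trans ?_ hcs
  nlinarith

end

end Pool.Agent.H865Z.Ffi
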