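import Mathlib

namespace Pool.Agent.H865Z.Ffi

open MeasureTheory

/-- The left shift on two-sided sequences. -/
def shift {A : Type} (x : ℤ → A) : ℤ → A := fun n => x (n + 1)

/-- The i.i.d. process with one-site law `p`: the product measure on two-sided sequences. -/
noncomputable def iid {A : Type} [MeasurableSpace A] (p : Measure A) : Measure (ℤ → A) :=
  Measure.infinitePi (fun _ : ℤ => p)

/-- The process `ν` is a finitary factor of the process `μ`. -/
def IsFinitaryFactor {A C : Type} [MeasurableSpace A] [MeasurableSpace C]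
    (μ : Measure (ℤ → A)) (ν : Measure (ℤ → C)) : Prop :=
  ∃ φ : (ℤ → A) → (ℤ → C), AEMeasurable φ μ ∧
    (∀ᵐ x ∂μ, φ (shift x) = shift (φ x)) ∧
    μ.map φ = ν ∧
    ∀ᵐ x ∂μ, ∃ r : ℕ, ∀ᵐ y ∂μ, (∀ n : ℤ, |n| ≤ (r : ℤ) → y n = x n) → φ y 0 = φ x 0

end Pool.Agent.H865Z.Ffi
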