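import Mathlib
import Pool.Agent.H865Z.Ffi.Defs

namespace Pool.Agent.H865Z.Ffi

open MeasureTheory Classical

/-- Shift by an arbitrary integer. -/
def sh {A : Type} (t : ℤ) (x : ℤ → A) : ℤ → A := fun n => x (n + t)

lemma shift_eq_sh {A : Type} (x : ℤ → A) : shift x = sh 1 x := rfl

lemma sh_sh {A : Type} (s t : ℤ) (x : ℤ → A) : sh s (sh t x) = sh (s + t) x := by
  funext n; simp [sh, add_assoc]

lemma sh_zero {A : Type} (x : ℤ → A) : sh 0 x = x := by
  funext n; simp [sh]

lemma measurable_sh {A : Type} [MeasurableSpace A] (t : ℤ) :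
    Measurable (sh t : (ℤ → A) → (ℤ → A)) :=
  measurable_pi_iff.2 fun n => measurable_pi_apply (n + t)

instance iid_prob {A : Type} [MeasurableSpace A] (p : Measure A) [IsProbabilityMeasure p] :
    IsProbabilityMeasure (iid p) := by
  unfold iid; infer_instance

lemma iid_cyl {A : Type} [MeasurableSpace A] (p : Measure A) [IsProbabilityMeasure p]
    {J : Type} [Fintype J] (ι : J → ℤ) (hι : Function.Injective ι) (T : J → Set A)
    (hT : ∀ j, MeasurableSet (T j)) :
    iid p {x | ∀ j, x (ι j) ∈ T j} = ∏ j, p (T j) := by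
  let t : ℤ → Set A := fun k => ⋂ j ∈ {j | ι j = k}, T j
  have ht : ∀ j, t (ι j) = T j := by
    intro j
    ext b
    simp only [t, Set.mem_iInter, Set.mem_ofPred_eq]
    constructor
    · intro h; exact h j rfl
    · intro h j' hj'; rw [hι hj']; exact h
  have hset : {x : ℤ → A | ∀ j, x (ι j) ∈ T j} = Set.pi (Finset.univ.image ι : Finset ℤ) t := by
    ext x
    simp only [Set.mem_ofPred_eq, Set.mem_pi, Finset.coe_image, Finset.coe_univ, Set.image_univ,
      Set.mem_range, forall_exists_index, forall_apply_eq_imp_iff, ht]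
  rw [hset]
  unfold iid
  rw [Measure.infinitePi_pi]
  · rw [Finset.prod_image (fun a _ b _ h => hι h)]
    simp only [ht]
  · intro k hk
    obtain ⟨j, _, rfl⟩ := Finset.mem_image.1 hk
    rw [ht]; exact hT j

lemma iid_sh {A : Type} [MeasurableSpace A] (p : Measure A) [IsProbabilityMeasure p] (t : ℤ) :
    (iid p).map (sh t) = iid p := by
  refine Measure.eq_infinitePi _ fun s T hT => ?_
  rw [Measure.map_apply (measurable_sh t) (MeasurableSet.pi s.countable_toSet fun i _ => hT i)]
  have h := iid_cyl p (J := s) (fun j => (j : ℤ) + t)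
    (fun a b h => Subtype.ext (by simpa using h)) (fun j => T j) (fun j => hT j)
  rw [Finset.prod_coe_sort s (fun j => p (T j))] at h
  rw [← h]
  congr 1
  ext x
  simp [sh, Set.mem_pi]

lemma iid_mp {A : Type} [MeasurableSpace A] (p : Measure A) [IsProbabilityMeasure p] (t : ℤ) :
    MeasurePreserving (sh t) (iid p) (iid p) := ⟨measurable_sh t, iid_sh p t⟩

lemma iid_pt {A : Type} [MeasurableSpace A] [MeasurableSingletonClass A]
    (p : Measure A) [IsProbabilityMeasure p]
    {J : Type} [Fintype J] (ι : J → ℤ) (hι : Function.Injective ι) (w : J → A) :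
    (iid p).real {x | ∀ j, x (ι j) = w j} = ∏ j, p.real {w j} := by
  have h := iid_cyl p ι hι (fun j => {w j}) (fun j => measurableSet_singleton _)
  simp only [Set.mem_singleton_iff] at h
  simp only [Measure.real, h, ENNReal.toReal_prod]

/-- Decomposition of the probability of an event depending on a finite-valued statistic. -/
lemma real_sum {Ω W : Type} [MeasurableSpace Ω] (μ : Measure Ω) [IsFiniteMeasure μ] [Fintype W]
    (f : Ω → W) (P : Set Ω) (hf : ∀ w, MeasurableSet (P ∩ f ⁻¹' {w})) (S : Set W) :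
    μ.real (P ∩ f ⁻¹' S) = ∑ w, if w ∈ S then μ.real (P ∩ f ⁻¹' {w}) else 0 := by
  rw [← Finset.sum_filter, ← measureReal_biUnion_finset]
  · congr 1
    ext x
    simp only [Set.mem_inter_iff, Set.mem_preimage, Set.mem_iUnion, Finset.mem_filter,
      Finset.mem_univ, true_and, Set.mem_singleton_iff]
    constructor
    · rintro ⟨h1, h2⟩; exact ⟨f x, h2, h1, rfl⟩
    · rintro ⟨w, h1, h2, rfl⟩; exact ⟨h2, h1⟩
  · intro a _ b _ hab
    simp only [Function.onFun]
    rw [Set.disjoint_left]
    rintro x ⟨_, h1⟩ ⟨_, h2⟩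
    exact hab (h1.symm.trans h2)
  · intro w _; exact hf w

/-- A function of finitely many coordinates is measurable. -/
lemma measurable_of_dep {A C : Type} [MeasurableSpace A] [MeasurableSingletonClass A] [Finite A]
    [Nonempty A] [MeasurableSpace C] (F : (ℤ → A) → C) (s : Finset ℤ)
    (hF : ∀ x y, (∀ k ∈ s, x k = y k) → F x = F y) : Measurable F := by
  let a0 : A := Classical.arbitrary A
  let G : (s → A) → C := fun w => F (fun k => if h : k ∈ s then w ⟨k, h⟩ else a0)
  have hG : Measurable G := measurable_of_finite G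
  have : F = G ∘ (fun x (k : s) => x k) := by
    funext x
    apply hF
    intro k hk
    simp [hk]
  rw [this]
  exact hG.comp (measurable_pi_iff.2 fun k => measurable_pi_apply _)

lemma measurableSet_of_dep {A : Type} [MeasurableSpace A] [MeasurableSingletonClass A] [Finite A]
    [Nonempty A] (E : Set (ℤ → A)) (s : Finset ℤ)
    (hE : ∀ x y, (∀ k ∈ s, x k = y k) → x ∈ E → y ∈ E) : MeasurableSet E := by
  have h := measurable_of_dep (C := Prop) (fun x => x ∈ E) s (fun x y h => propext
    ⟨hE x y h, hE y x fun k hk => (h k hk).symm⟩)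
  exact measurableSet_setOfPred.2 h

/-- `f` is a block code of radius `R`. -/
def Local {A : Type} (f : (ℤ → A) → (ℤ → A)) (R : ℕ) : Prop :=
  ∀ (x y : ℤ → A) (n : ℤ), (∀ k : ℤ, n - R ≤ k → k ≤ n + R → x k = y k) → f x n = f y n

lemma Local.measurable {A : Type} [MeasurableSpace A] [MeasurableSingletonClass A] [Finite A]
    [Nonempty A] {f : (ℤ → A) → (ℤ → A)} {R : ℕ} (h : Local f R) : Measurable f := by
  refine measurable_pi_iff.2 fun n => measurable_of_dep _ (Finset.Icc (n - R) (n + R)) ?_
  intro x y hxy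
  exact h x y n fun k h1 h2 => hxy k (Finset.mem_Icc.2 ⟨h1, h2⟩)

lemma Local.comp {A : Type} {f g : (ℤ → A) → (ℤ → A)} {R S : ℕ} (hf : Local f R)
    (hg : Local g S) : Local (f ∘ g) (R + S) := by
  intro x y n h
  apply hf
  intro k h1 h2
  apply hg
  intro j h3 h4
  apply h <;> push_cast <;> linarith

end Pool.Agent.H865Z.Ffi
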