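import Mathlib
import Pool.Agent.H865Z.Ffi.Law
import Pool.Agent.H865Z.Ffi.Count

namespace Pool.Agent.H865Z.Ffi

open Classical

abbrev XX := ℤ → Fin 3
abbrev Wd (a n : ℕ) := Fin n → Fin a → Fin 3

def win (a n : ℕ) (x : XX) (t : ℤ) : Wd a n := fun u v => x (t + ((u : ℕ) * a + (v : ℕ) : ℕ))

lemma pos_lt {a n : ℕ} (u : Fin n) (v : Fin a) : (u : ℕ) * a + v < a * n := by
  have h1 := u.2
  have h2 := v.2
  calc (u : ℕ) * a + v < (u : ℕ) * a + a := by omega
    _ = (u + 1) * a := by ring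
    _ ≤ n * a := Nat.mul_le_mul_right a h1
    _ = a * n := by ring

lemma pos_inj {a n : ℕ} {u u' : Fin n} {v v' : Fin a}
    (h : (u : ℕ) * a + v = (u' : ℕ) * a + v') : u = u' ∧ v = v' := by
  have ha : 0 < a := Nat.lt_of_le_of_lt (Nat.zero_le _) v.2
  have h1 : ((u : ℕ) * a + v) / a = u := by
    rw [mul_comm, Nat.mul_add_div ha, Nat.div_eq_of_lt v.2]; simp
  have h2 : ((u' : ℕ) * a + v') / a = u' := by
    rw [mul_comm, Nat.mul_add_div ha, Nat.div_eq_of_lt v'.2]; simp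
  have hu : (u : ℕ) = u' := by rw [← h1, ← h2, h]
  refine ⟨Fin.ext hu, Fin.ext ?_⟩
  rw [hu] at h; omega

lemma pos_surj {a n : ℕ} {k : ℤ} (h0 : 0 ≤ k) (h1 : k < (a * n : ℕ)) :
    ∃ (u : Fin n) (v : Fin a), k = ((u : ℕ) * a + (v : ℕ) : ℕ) := by
  obtain ⟨d, rfl⟩ := Int.eq_ofNat_of_zero_le h0
  have hd : d < a * n := by exact_mod_cast h1
  have ha : 0 < a := by
    rcases Nat.eq_zero_or_pos a with h | h
    · simp [h] at hd
    · exact h
  refine ⟨⟨d / a, Nat.div_lt_of_lt_mul hd⟩, ⟨d % a, Nat.mod_lt _ ha⟩, ?_⟩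
  simp only [Nat.div_add_mod']

noncomputable def ext {a n : ℕ} (w : Wd a n) : XX := fun k =>
  if h : ∃ p : Fin n × Fin a, k = ((p.1 : ℕ) * a + (p.2 : ℕ) : ℕ) then
    w h.choose.1 h.choose.2 else 0

lemma ext_pos {a n : ℕ} (w : Wd a n) (u : Fin n) (v : Fin a) :
    ext w ((u : ℕ) * a + (v : ℕ) : ℕ) = w u v := by
  have h : ∃ p : Fin n × Fin a, (((u : ℕ) * a + (v : ℕ) : ℕ) : ℤ)
      = ((p.1 : ℕ) * a + (p.2 : ℕ) : ℕ) := ⟨(u, v), rfl⟩
  unfold ext
  rw [dif_pos h]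
  have h2 := pos_inj (Nat.cast_injective (R := ℤ) h.choose_spec)
  rw [← h2.1, ← h2.2]

lemma ext_win {a n : ℕ} (x : XX) (t : ℤ) {k : ℤ} (h0 : 0 ≤ k) (h1 : k < (a * n : ℕ)) :
    ext (win a n x t) k = x (t + k) := by
  obtain ⟨u, v, rfl⟩ := pos_surj h0 h1
  rw [ext_pos]; rfl

def HH (a : ℕ) : Fin a → Fin 3 := fun _ => 1
def DD (a : ℕ) : Fin a → Fin 3 := fun _ => 2

lemma HH_ne_DD {a : ℕ} (ha : 1 ≤ a) : HH a ≠ DD a := by
  intro h
  have := congrFun h ⟨0, ha⟩
  simp [HH, DD] at this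

def Run (x : XX) (c : Fin 3) (s : ℤ) (l : ℕ) : Prop := ∀ k, s ≤ k → k < s + l → x k = c

def Pre (a : ℕ) (x : XX) (t : ℤ) : Prop := Run x 2 (t - 2 * a - 1) (2 * a) ∧ x (t - 1) = 0

def Start (a n : ℕ) (x : XX) (t : ℤ) : Prop := Pre a x t ∧ ∀ u, win a n x t u ≠ DD a

lemma no_run {a n : ℕ} (ha : 1 ≤ a) {x : XX} {t s : ℤ} (h : Start a n x t)
    (hr : Run x 2 s (2 * a)) (h1 : t ≤ s) (h2 : s + 2 * a ≤ t + (a * n : ℕ)) : False := by
  obtain ⟨d, hd⟩ := Int.eq_ofNat_of_zero_le (sub_nonneg.2 h1)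
  have e1 := Nat.div_add_mod' (d + a - 1) a
  have e2 := Nat.mod_lt (d + a - 1) ha
  set u := (d + a - 1) / a with hu
  have h3 : d + 2 * a ≤ a * n := by
    have : (d : ℤ) + 2 * a ≤ (a * n : ℕ) := by linarith
    exact_mod_cast this
  have hun : u < n := by
    by_contra hc
    push Not at hc
    have := Nat.mul_le_mul_right a hc
    rw [mul_comm] at this
    omega
  apply h.2 ⟨u, hun⟩
  funext v
  have hv := v.2
  apply hr
  · show s ≤ t + ((u * a + v : ℕ) : ℤ)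
    have : d ≤ u * a + v := by omega
    have : (d : ℤ) ≤ ((u * a + v : ℕ) : ℤ) := by exact_mod_cast this
    linarith
  · show t + ((u * a + v : ℕ) : ℤ) < s + ((2 * a : ℕ) : ℤ)
    have : u * a + v < d + 2 * a := by omega
    have : ((u * a + v : ℕ) : ℤ) < ((d + 2 * a : ℕ) : ℤ) := by exact_mod_cast this
    push_cast at this ⊢
    linarith

lemma start_sep {a n : ℕ} (ha : 1 ≤ a) {x : XX} {t t' : ℤ} (h : Start a n x t)
    (h' : Start a n x t') (hlt : t < t') : t + (a * n : ℕ) ≤ t' := by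
  by_contra hc
  push Not at hc
  by_cases h1 : t ≤ t' - 2 * a - 1
  · exact no_run ha h h'.1.1 h1 (by linarith)
  · push Not at h1
    have h2 := h'.1.1 (t - 1) (by linarith) (by push_cast; linarith)
    rw [h.1.2] at h2
    exact absurd h2 (by decide)

lemma start_uniq {a n : ℕ} (ha : 1 ≤ a) {x : XX} {t t' k : ℤ} (h : Start a n x t)
    (h' : Start a n x t') (h1 : t ≤ k) (h2 : k < t + (a * n : ℕ)) (h3 : t' ≤ k)
    (h4 : k < t' + (a * n : ℕ)) : t = t' := by
  rcases lt_trichotomy t t' with hl | he | hl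
  · have := start_sep ha h h' hl; linarith
  · exact he
  · have := start_sep ha h' h hl; linarith

noncomputable def steer {a n : ℕ} (A : Set (Wd a n)) (w' : Wd a n) : Wd a n :=
  if h : ∃ w ∈ A, Agree (HH a) w' w then h.choose else w'

lemma steer_agree {a n : ℕ} (A : Set (Wd a n)) (w' : Wd a n) : Agree (HH a) w' (steer A w') := by
  unfold steer
  split_ifs with h
  · exact h.choose_spec.2
  · intro u _; rfl

lemma steer_mem {a n : ℕ} (A : Set (Wd a n)) (w' : Wd a n) (h : ∃ w ∈ A, Agree (HH a) w' w) :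
    steer A w' ∈ A := by
  unfold steer
  rw [dif_pos h]
  exact h.choose_spec.1

noncomputable def Phi {a n : ℕ} (A : Set (Wd a n)) (x : XX) : XX := fun k =>
  if h : ∃ t, t ≤ k ∧ k < t + (a * n : ℕ) ∧ Start a n x t then
    ext (steer A (win a n x h.choose)) (k - h.choose) else x k

lemma Phi_start {a n : ℕ} (ha : 1 ≤ a) (A : Set (Wd a n)) {x : XX} {t k : ℤ}
    (h : Start a n x t) (h1 : t ≤ k) (h2 : k < t + (a * n : ℕ)) :
    Phi A x k = ext (steer A (win a n x t)) (k - t) := by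
  have hex : ∃ t, t ≤ k ∧ k < t + (a * n : ℕ) ∧ Start a n x t := ⟨t, h1, h2, h⟩
  unfold Phi
  rw [dif_pos hex]
  have := start_uniq ha hex.choose_spec.2.2 h hex.choose_spec.1 hex.choose_spec.2.1 h1 h2
  rw [this]

lemma Phi_no {a n : ℕ} (A : Set (Wd a n)) {x : XX} {k : ℤ}
    (h : ¬ ∃ t, t ≤ k ∧ k < t + (a * n : ℕ) ∧ Start a n x t) : Phi A x k = x k := by
  unfold Phi
  rw [dif_neg h]

lemma win_congr {a n : ℕ} {x y : XX} {t t' : ℤ}
    (h : ∀ k : ℤ, 0 ≤ k → k < (a * n : ℕ) → x (t + k) = y (t' + k)) :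
    win a n x t = win a n y t' := by
  funext u v
  exact h _ (Int.natCast_nonneg _) (by exact_mod_cast pos_lt u v)

lemma start_congr {a n : ℕ} {x y : XX} {t t' : ℤ}
    (h : ∀ k : ℤ, -(2 * a + 1) ≤ k → k < (a * n : ℕ) → x (t + k) = y (t' + k))
    (hs : Start a n x t) : Start a n y t' := by
  have hn : (0 : ℤ) ≤ (a * n : ℕ) := Int.natCast_nonneg _
  have ha : (0 : ℤ) ≤ (a : ℕ) := Int.natCast_nonneg _
  refine ⟨⟨?_, ?_⟩, ?_⟩
  · intro k h1 h2
    push_cast at h2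
    have e := h (k - t') (by linarith) (by linarith)
    rw [show t' + (k - t') = k by ring] at e
    rw [← e]
    exact hs.1.1 _ (by linarith) (by push_cast; linarith)
  · have e := h (-1) (by linarith) (by linarith)
    rw [show t' + -1 = t' - 1 by ring, show t + -1 = t - 1 by ring] at e
    rw [← e]; exact hs.1.2
  · rw [← win_congr (x := x) (t := t) fun k h1 h2 => h k (by linarith) h2]
    exact hs.2

lemma Phi_congr {a n : ℕ} (ha : 1 ≤ a) (A : Set (Wd a n)) {x y : XX} {k k' : ℤ}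
    (h : ∀ j : ℤ, -((a * n + 2 * a + 1 : ℕ) : ℤ) ≤ j → j ≤ ((a * n + 2 * a + 1 : ℕ) : ℤ) →
      x (k + j) = y (k' + j)) : Phi A x k = Phi A y k' := by
  have hn : (0 : ℤ) ≤ (a * n : ℕ) := Int.natCast_nonneg _
  have ha0 : (0 : ℤ) ≤ (a : ℕ) := Int.natCast_nonneg _
  have hc : ((a * n + 2 * a + 1 : ℕ) : ℤ) = (a * n : ℕ) + 2 * a + 1 := by push_cast; ring
  rw [hc] at h
  by_cases hx : ∃ t, t ≤ k ∧ k < t + (a * n : ℕ) ∧ Start a n x t
  · obtain ⟨t, h1, h2, hs⟩ := hx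
    have hh : ∀ j : ℤ, -(2 * a + 1) ≤ j → j < (a * n : ℕ) →
        x (t + j) = y ((t + k' - k) + j) := by
      intro j h3 h4
      have e := h (t + j - k) (by linarith) (by linarith)
      rw [show k + (t + j - k) = t + j by ring,
        show k' + (t + j - k) = t + k' - k + j by ring] at e
      exact e
    have hs' : Start a n y (t + k' - k) := start_congr hh hs
    rw [Phi_start ha A hs h1 h2, Phi_start ha A hs' (by linarith) (by linarith),
      win_congr (x := x) (y := y) (t := t) (t' := t + k' - k) fun j h3 h4 => hh j (by linarith) h4]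
    congr 1; ring
  · have hy : ¬ ∃ t, t ≤ k' ∧ k' < t + (a * n : ℕ) ∧ Start a n y t := by
      rintro ⟨t, h1, h2, hs⟩
      apply hx
      refine ⟨t + k - k', by linarith, by linarith, start_congr (x := y) (t := t) ?_ hs⟩
      intro j h3 h4
      have e := h (t + j - k') (by linarith) (by linarith)
      rw [show k' + (t + j - k') = t + j by ring,
        show k + (t + j - k') = t + k - k' + j by ring] at e
      exact e.symm
    rw [Phi_no A hx, Phi_no A hy]
    simpa using h 0 (by linarith) (by linarith)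

lemma Phi_sh {a n : ℕ} (ha : 1 ≤ a) (A : Set (Wd a n)) (t : ℤ) (x : XX) :
    Phi A (sh t x) = sh t (Phi A x) := by
  funext k
  show Phi A (sh t x) k = Phi A x (k + t)
  apply Phi_congr ha
  intro j _ _
  show x (k + j + t) = x (k + t + j)
  congr 1; ring

lemma Phi_local {a n : ℕ} (ha : 1 ≤ a) (A : Set (Wd a n)) :
    Local (Phi A) (a * n + 2 * a + 1) := by
  intro x y k h
  apply Phi_congr ha
  intro j h1 h2
  exact h _ (by linarith) (by linarith)

lemma Phi_change {a n : ℕ} (ha : 1 ≤ a) (A : Set (Wd a n)) {x : XX} {k : ℤ}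
    (h : Phi A x k ≠ x k) : ∃ s, s ≤ k ∧ k < s + a ∧ Run x 1 s a := by
  by_cases hx : ∃ t, t ≤ k ∧ k < t + (a * n : ℕ) ∧ Start a n x t
  · obtain ⟨t, h1, h2, hs⟩ := hx
    rw [Phi_start ha A hs h1 h2] at h
    obtain ⟨u, v, e⟩ := pos_surj (a := a) (n := n) (k := k - t) (by linarith) (by linarith)
    rw [e, ext_pos] at h
    have hk : k = t + ((u : ℕ) * a + (v : ℕ) : ℕ) := by linarith
    have hH : win a n x t u = HH a := by
      by_contra hne
      apply h
      rw [steer_agree A _ u hne, hk]; rfl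
    have hv := v.2
    refine ⟨t + (u : ℕ) * a, ?_, ?_, ?_⟩
    · rw [hk]; push_cast; linarith [Int.natCast_nonneg (v : ℕ)]
    · rw [hk]; push_cast
      have : ((v : ℕ) : ℤ) < a := by exact_mod_cast hv
      linarith
    · intro j h3 h4
      obtain ⟨d, hd⟩ := Int.eq_ofNat_of_zero_le (sub_nonneg.2 h3)
      have hda : d < a := by
        have : (d : ℤ) < a := by linarith
        exact_mod_cast this
      have := congrFun hH ⟨d, hda⟩
      simp only [win, HH] at this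
      rw [← this]
      congr 1
      push_cast; linarith
  · exact absurd (Phi_no A hx) h

lemma Phi_ne_one {a n : ℕ} (ha : 1 ≤ a) (A : Set (Wd a n)) {x : XX} {k : ℤ} (h : x k ≠ 1) :
    Phi A x k = x k := by
  by_contra hc
  obtain ⟨s, h1, h2, h3⟩ := Phi_change ha A hc
  exact h (h3 k h1 h2)

lemma Phi_marker {a n : ℕ} (ha : 1 ≤ a) (A : Set (Wd a n)) {x : XX} {sl sr k : ℤ}
    (hl : Run x 2 sl (2 * a)) (hr : Run x 2 sr (2 * a)) (h1 : sl + 2 * a ≤ k) (h2 : k ≤ sr)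
    (h3 : sr + 2 * a - sl ≤ (a * n : ℕ)) : Phi A x k = x k := by
  apply Phi_no
  rintro ⟨t, h4, h5, hs⟩
  by_cases h : t ≤ sl
  · exact no_run ha hs hl h (by linarith)
  · push Not at h
    exact no_run ha hs hr (by linarith) (by linarith)

lemma Phi_steer {a n : ℕ} (ha : 1 ≤ a) (A : Set (Wd a n)) {x : XX} (hp : Pre a x 0)
    (hw : win a n x 0 ∈ Steerable (HH a) (DD a) A) :
    ∃ w ∈ A, ∀ k : ℤ, 0 ≤ k → k < (a * n : ℕ) → Phi A x k = ext w k := by
  refine ⟨steer A (win a n x 0), steer_mem A _ hw.2, fun k h1 h2 => ?_⟩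
  rw [Phi_start ha A ⟨hp, hw.1⟩ h1 (by linarith)]
  simp

end Pool.Agent.H865Z.Ffi
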