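import Mathlib
import Pool.Agent.H865Z.Ffi.Phi

namespace Pool.Agent.H865Z.Ffi

open Classical MeasureTheory

noncomputable def uu : Measure (Fin 3) := (PMF.uniformOfFintype (Fin 3)).toMeasure

instance uu_prob : IsProbabilityMeasure uu := by unfold uu; infer_instance

lemma uu_real (b : Fin 3) : uu.real {b} = 1 / 3 := by
  unfold uu
  rw [Measure.real, PMF.toMeasure_apply_singleton _ _ (measurableSet_singleton _)]
  simp

noncomputable def mu : Measure XX := iid uu

instance mu_prob : IsProbabilityMeasure mu := by unfold mu; infer_instance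

lemma mu_pt {J : Type} [Fintype J] (ι : J → ℤ) (hι : Function.Injective ι) (w : J → Fin 3) :
    mu.real {x | ∀ j, x (ι j) = w j} = (1 / 3) ^ Fintype.card J := by
  unfold mu
  rw [iid_pt uu ι hι w]
  simp only [uu_real, Finset.prod_const, Finset.card_univ]

lemma mu_mp (t : ℤ) : MeasurePreserving (sh t) mu mu := iid_mp uu t

lemma card_blk (a : ℕ) : (Fintype.card (Fin a → Fin 3) : ℝ) = 3 ^ a := by simp

lemma measurable_win (a n : ℕ) (t : ℤ) : Measurable (fun x : XX => win a n x t) :=
  measurable_pi_iff.2 fun _ => measurable_pi_iff.2 fun _ => measurable_pi_apply _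

lemma win_pt (a n : ℕ) (t : ℤ) (w : Wd a n) :
    mu.real {x | win a n x t = w} = (1 / (Fintype.card (Fin a → Fin 3) : ℝ)) ^ n := by
  have h := mu_pt (J := Fin n × Fin a) (fun p => t + ((p.1 : ℕ) * a + (p.2 : ℕ) : ℕ))
    (by
      intro p q h
      have h1 : (p.1 : ℕ) * a + (p.2 : ℕ) = (q.1 : ℕ) * a + (q.2 : ℕ) := by
        have := add_left_cancel h
        exact_mod_cast this
      exact Prod.ext (pos_inj h1).1 (pos_inj h1).2)
    (fun p => w p.1 p.2)
  rw [card_blk, ← one_div_pow, ← pow_mul, mul_comm]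
  simp only [Fintype.card_prod, Fintype.card_fin] at h
  rw [← h]
  congr 1
  ext x
  simp only [Set.mem_ofPred_eq, Prod.forall]
  constructor
  · rintro rfl u v; rfl
  · intro h; funext u v; exact h u v

lemma win_law (a n : ℕ) (t : ℤ) (S : Set (Wd a n)) :
    mu.real {x | win a n x t ∈ S} =
      ∑ w, if w ∈ S then (1 / (Fintype.card (Fin a → Fin 3) : ℝ)) ^ n else 0 := by
  have h := real_sum mu (fun x => win a n x t) Set.univ (fun w => by
    rw [Set.univ_inter]; exact measurable_win a n t (measurableSet_singleton _)) S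
  simp only [Set.univ_inter] at h
  refine h.trans (Finset.sum_congr rfl fun w _ => ?_)
  split_ifs
  · exact win_pt a n t w
  · rfl

lemma measurableSet_pre (a : ℕ) : MeasurableSet {x : XX | Pre a x 0} := by
  apply measurableSet_of_dep _ (Finset.Icc (-(2 * a + 1 : ℤ)) 0)
  intro x y h hx
  have ha : (0 : ℤ) ≤ (a : ℕ) := Int.natCast_nonneg _
  refine ⟨fun k h1 h2 => ?_, ?_⟩
  · push_cast at h2
    rw [← h k (Finset.mem_Icc.2 ⟨by linarith, by linarith⟩)]
    exact hx.1 k h1 (by push_cast; linarith)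
  · rw [← h _ (Finset.mem_Icc.2 ⟨by linarith, by linarith⟩)]
    exact hx.2

lemma pre_win_pt (a n : ℕ) (w : Wd a n) :
    mu.real ({x | Pre a x 0} ∩ (fun x => win a n x 0) ⁻¹' {w}) =
      (1 / 3) ^ (2 * a + 1) * (1 / (Fintype.card (Fin a → Fin 3) : ℝ)) ^ n := by
  have h := mu_pt (J := Fin (2 * a + 1) ⊕ (Fin n × Fin a))
    (Sum.elim (fun j => -1 - ((j : ℕ) : ℤ)) (fun p => ((p.1 : ℕ) * a + (p.2 : ℕ) : ℕ)))
    (by
      rintro (j | p) (j' | q) h
      · simp only [Sum.elim_inl] at h
        have : (j : ℕ) = j' := by omega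
        rw [Fin.ext this]
      · simp only [Sum.elim_inl, Sum.elim_inr] at h
        omega
      · simp only [Sum.elim_inl, Sum.elim_inr] at h
        omega
      · simp only [Sum.elim_inr] at h
        have h1 : (p.1 : ℕ) * a + (p.2 : ℕ) = (q.1 : ℕ) * a + (q.2 : ℕ) := by exact_mod_cast h
        rw [Prod.ext (pos_inj h1).1 (pos_inj h1).2])
    (Sum.elim (fun j => if (j : ℕ) = 0 then 0 else 2) (fun p => w p.1 p.2))
  rw [card_blk, ← one_div_pow, ← pow_mul, mul_comm a n, ← pow_add]
  simp only [Fintype.card_sum, Fintype.card_prod, Fintype.card_fin] at h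
  rw [← h]
  congr 1
  ext x
  simp only [Set.mem_inter_iff, Set.mem_ofPred_eq, Set.mem_preimage, Set.mem_singleton_iff,
    Sum.forall, Sum.elim_inl, Sum.elim_inr, Prod.forall]
  constructor
  · rintro ⟨hp, rfl⟩
    refine ⟨fun j => ?_, fun u v => ?_⟩
    · have hj := j.2
      split_ifs with h0
      · rw [h0]; simpa using hp.2
      · apply hp.1 <;> omega
    · simp [win]
  · rintro ⟨h1, h2⟩
    refine ⟨⟨fun k h3 h4 => ?_, ?_⟩, ?_⟩
    · obtain ⟨d, hd⟩ := Int.eq_ofNat_of_zero_le (a := -1 - k) (by omega)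
      have := h1 ⟨d, by omega⟩
      rw [if_neg (by show d ≠ 0; omega)] at this
      rw [← this]; congr 1; show k = -1 - (d : ℤ); omega
    · simpa using h1 ⟨0, by omega⟩
    · funext u v
      rw [← h2 u v]; simp [win]

lemma pre_win_law (a n : ℕ) (S : Set (Wd a n)) :
    mu.real {x | Pre a x 0 ∧ win a n x 0 ∈ S} = (1 / 3) ^ (2 * a + 1) *
      ∑ w, if w ∈ S then (1 / (Fintype.card (Fin a → Fin 3) : ℝ)) ^ n else 0 := by
  have h := real_sum mu (fun x => win a n x 0) {x | Pre a x 0} (fun w =>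
    (measurableSet_pre a).inter (measurable_win a n 0 (measurableSet_singleton _))) S
  refine h.trans ?_
  rw [Finset.mul_sum]
  refine Finset.sum_congr rfl fun w _ => ?_
  split_ifs
  · exact pre_win_pt a n w
  · simp

lemma sum_prod_pi {ι β : Type} [Fintype ι] [DecidableEq ι] [Fintype β] (f : ι → β → ℝ) :
    ∑ w : ι → β, ∏ u, f u (w u) = ∏ u, ∑ b, f u b := by
  rw [Finset.prod_univ_sum, Fintype.piFinset_univ]

lemma nohit (b m : ℕ) (t : ℤ) :
    mu.real {x | ∀ u, win b m x t u ≠ DD b} = (1 - 1 / 3 ^ b) ^ m := by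
  have h := win_law b m t {w | ∀ u, w u ≠ DD b}
  refine h.trans ?_
  set c : ℝ := 1 / (Fintype.card (Fin b → Fin 3) : ℝ) with hc
  have e : ∀ w : Wd b m, (if w ∈ {w : Wd b m | ∀ u, w u ≠ DD b} then c ^ m else 0)
      = ∏ u, (if w u = DD b then 0 else c) := by
    intro w
    by_cases hw : ∀ u, w u ≠ DD b
    · rw [if_pos (show w ∈ {w : Wd b m | ∀ u, w u ≠ DD b} from hw)]
      simp [hw]
    · rw [if_neg (show w ∉ {w : Wd b m | ∀ u, w u ≠ DD b} from hw)]
      push Not at hw
      obtain ⟨u, hu⟩ := hw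
      exact (Finset.prod_eq_zero (Finset.mem_univ u) (by simp [hu])).symm
  refine (Finset.sum_congr rfl fun w _ => by convert e w).trans ?_
  have e2 : ∑ d : Fin b → Fin 3, (if d = DD b then 0 else c) = 1 - 1 / 3 ^ b := by
    have : ∀ d : Fin b → Fin 3, (if d = DD b then 0 else c) = c - (if d = DD b then c else 0) := by
      intro d; split_ifs <;> simp
    simp only [this, Finset.sum_sub_distrib, Finset.sum_ite_eq', Finset.mem_univ, if_true,
      Finset.sum_const, Finset.card_univ, nsmul_eq_mul]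
    rw [hc, card_blk]
    field_simp
  rw [← e2]
  refine (sum_prod_pi (fun (_ : Fin m) (d : Fin b → Fin 3) => if d = DD b then 0 else c)).trans ?_
  simp only [Finset.prod_const, Finset.card_univ, Fintype.card_fin]

end Pool.Agent.H865Z.Ffi
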