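import Mathlib
import Pool.Agent.H865Z.Ffi.WinLaw

namespace Pool.Agent.H865Z.Ffi

open Classical MeasureTheory

abbrev Code (r : ℕ) := (Fin (2 * r + 1) → Fin 3) → Option Bool

abbrev Ty := ℕ × (Σ r : ℕ, Code r) × ℚ × ℚ × ℕ

def code {r : ℕ} (ψ : Code r) (y : XX) (k : ℤ) : Option Bool :=
  ψ (fun j => y (k - r + (j : ℕ)))

def Tset {r : ℕ} (ψ : Code r) (e s L' : ℕ) (z : Fin L' → Bool) : Set XX :=
  {y | e * (Finset.univ.filter fun j : Fin L' => code ψ y ((s + j : ℕ) : ℤ) = none).card ≤ L' ∧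
    ∀ (j : Fin L') (b : Bool), code ψ y ((s + j : ℕ) : ℤ) = some b → b = z j}

noncomputable def piv (v0 v1 : ℝ) {L' : ℕ} (z : Fin L' → Bool) : ℝ :=
  ∏ j, (if z j then v1 else v0)

instance : Nonempty Ty := ⟨(0, ⟨0, fun _ => none⟩, 0, 0, 0)⟩

noncomputable def enum : ℕ → Ty := (exists_surjective_nat Ty).choose

noncomputable def ty (i : ℕ) : Ty := enum (Nat.unpair i).2

lemma ty_often (τ : Ty) (k : ℕ) : ∃ i, k ≤ i ∧ ty i = τ := by
  obtain ⟨j, hj⟩ := (exists_surjective_nat Ty).choose_spec τ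
  exact ⟨Nat.pair k j, Nat.left_le_pair k j, by simp [ty, enum, hj]⟩

noncomputable def aa (i : ℕ) : ℕ := (ty i).1 + 1
noncomputable def rr (i : ℕ) : ℕ := (ty i).2.1.1
noncomputable def ps (i : ℕ) : Code (rr i) := (ty i).2.1.2
noncomputable def va (i : ℕ) : ℝ := ((ty i).2.2.1 : ℝ)
noncomputable def vb (i : ℕ) : ℝ := ((ty i).2.2.2.1 : ℝ)
noncomputable def ee (i : ℕ) : ℕ := (ty i).2.2.2.2

lemma aa_pos (i : ℕ) : 1 ≤ aa i := Nat.le_add_left _ _

lemma exists_m (i W : ℕ) :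
    ∃ m : ℕ, (1 - 1 / 3 ^ (2 * aa i) : ℝ) ^ m ≤ (1 / 2) ^ (i + 2) * (1 / 3) ^ W := by
  obtain ⟨m, hm⟩ := exists_pow_lt_of_lt_one (x := ((1 / 2) ^ (i + 2) * (1 / 3) ^ W : ℝ))
    (y := (1 - 1 / 3 ^ (2 * aa i) : ℝ)) (by positivity) (by
      have : (0 : ℝ) < 1 / 3 ^ (2 * aa i) := by positivity
      linarith)
  exact ⟨m, hm.le⟩

noncomputable def mOf (i W : ℕ) : ℕ := (exists_m i W).choose
noncomputable def nOf (i W : ℕ) : ℕ := 4 * mOf i W + 4 * W + 4 * rr i + 1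
noncomputable def LpOf (i W : ℕ) : ℕ := aa i * nOf i W - 2 * (W + rr i)

def AOf (i W : ℕ) (Ψ : XX → XX) (z : Fin (LpOf i W) → Bool) : Set (Wd (aa i) (nOf i W)) :=
  {w | Ψ (ext w) ∈ Tset (ps i) (ee i) (W + rr i) (LpOf i W) z}

noncomputable def zOf (i W : ℕ) (Ψ : XX → XX) : Fin (LpOf i W) → Bool :=
  (Finite.exists_max fun z => wt (HH (aa i)) (DD (aa i)) (AOf i W Ψ z) / piv (va i) (vb i) z).choose

noncomputable def st : ℕ → (XX → XX) × ℕ
  | 0 => (id, 0)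
  | i + 1 => ((st i).1 ∘ Phi (AOf i (st i).2 (st i).1 (zOf i (st i).2 (st i).1)),
      (st i).2 + (aa i * nOf i (st i).2 + 2 * aa i + 1))

noncomputable def Ps (i : ℕ) : XX → XX := (st i).1
noncomputable def Ww (i : ℕ) : ℕ := (st i).2
noncomputable def mm (i : ℕ) : ℕ := mOf i (Ww i)
noncomputable def nn (i : ℕ) : ℕ := nOf i (Ww i)
noncomputable def Lp (i : ℕ) : ℕ := LpOf i (Ww i)
def AA (i : ℕ) (z : Fin (Lp i) → Bool) : Set (Wd (aa i) (nn i)) := AOf i (Ww i) (Ps i) z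
noncomputable def zs (i : ℕ) : Fin (Lp i) → Bool := zOf i (Ww i) (Ps i)
noncomputable def Ph (i : ℕ) : XX → XX := Phi (AA i (zs i))

lemma Ps_zero : Ps 0 = id := rfl
lemma Ps_succ (i : ℕ) : Ps (i + 1) = Ps i ∘ Ph i := rfl
lemma Ww_zero : Ww 0 = 0 := rfl
lemma Ww_succ (i : ℕ) : Ww (i + 1) = Ww i + (aa i * nn i + 2 * aa i + 1) := rfl
lemma nn_eq (i : ℕ) : nn i = 4 * mm i + 4 * Ww i + 4 * rr i + 1 := rfl
lemma Lp_eq (i : ℕ) : Lp i = aa i * nn i - 2 * (Ww i + rr i) := rfl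
lemma mm_spec (i : ℕ) :
    (1 - 1 / 3 ^ (2 * aa i) : ℝ) ^ mm i ≤ (1 / 2) ^ (i + 2) * (1 / 3) ^ Ww i :=
  (exists_m i (Ww i)).choose_spec
lemma mem_AA (i : ℕ) (z : Fin (Lp i) → Bool) (w : Wd (aa i) (nn i)) :
    w ∈ AA i z ↔ Ps i (ext w) ∈ Tset (ps i) (ee i) (Ww i + rr i) (Lp i) z := Iff.rfl
lemma zs_max (i : ℕ) (z : Fin (Lp i) → Bool) :
    wt (HH (aa i)) (DD (aa i)) (AA i z) / piv (va i) (vb i) z ≤
      wt (HH (aa i)) (DD (aa i)) (AA i (zs i)) / piv (va i) (vb i) (zs i) :=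
  (Finite.exists_max fun z => wt (HH (aa i)) (DD (aa i)) (AOf i (Ww i) (Ps i) z)
    / piv (va i) (vb i) z).choose_spec z

lemma L_ge (i : ℕ) : 4 * (aa i * mm i) + 4 * Ww i + 4 * rr i + 1 ≤ aa i * nn i := by
  rw [nn_eq]
  have := aa_pos i
  nlinarith

lemma Ww_strictMono : StrictMono Ww := strictMono_nat_of_lt_succ fun i => by
  rw [Ww_succ]; omega

lemma L_mono {i j : ℕ} (h : i < j) : aa i * nn i ≤ aa j * nn j := by
  have h1 := L_ge j
  have h2 := Ww_strictMono.monotone (Nat.succ_le_of_lt h)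
  rw [Ww_succ] at h2
  omega

lemma Ps_local (i : ℕ) : Local (Ps i) (Ww i) := by
  induction i with
  | zero => intro x y n h; exact h n (by simp [Ww_zero]) (by simp [Ww_zero])
  | succ i ih => exact ih.comp (Phi_local (aa_pos i) _)

lemma Ps_sh (i : ℕ) (t : ℤ) (x : XX) : Ps i (sh t x) = sh t (Ps i x) := by
  induction i generalizing x with
  | zero => rfl
  | succ i ih =>
    show Ps i (Phi _ (sh t x)) = sh t (Ps i (Phi _ x))
    rw [Phi_sh (aa_pos i), ih]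

lemma Ps_ne_one (i : ℕ) {x : XX} {k : ℤ} (h : x k ≠ 1) : Ps i x k = x k := by
  induction i generalizing x with
  | zero => rfl
  | succ i ih =>
    have e : Ph i x k = x k := Phi_ne_one (aa_pos i) _ h
    show Ps i (Ph i x) k = x k
    rw [ih (by rw [e]; exact h), e]

/-- Markers on both sides of the region of radius `2 W`. -/
def Mark (i : ℕ) (x : XX) : Prop :=
  ∃ sl sr : ℤ, Run x 2 sl (2 * aa i) ∧ Run x 2 sr (2 * aa i) ∧ sl + 2 * aa i ≤ -(2 * Ww i) ∧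
    2 * (Ww i : ℤ) ≤ sr ∧ sr + 2 * aa i - sl ≤ (aa i * nn i : ℕ)

lemma Ph_of_mark {i : ℕ} {x : XX} (h : Mark i x) {k : ℤ} (h1 : -(2 * Ww i) ≤ k)
    (h2 : k ≤ 2 * Ww i) : Ph i x k = x k := by
  obtain ⟨sl, sr, hl, hr, h3, h4, h5⟩ := h
  exact Phi_marker (aa_pos i) _ hl hr (by linarith) (by linarith) h5

lemma Ps_stab {I0 : ℕ} {x : XX} (h : ∀ I, I0 ≤ I → Mark I x) {k : ℤ} (h1 : -(Ww I0 : ℤ) ≤ k)
    (h2 : k ≤ Ww I0) (I : ℕ) (hI : I0 ≤ I) : Ps I x k = Ps I0 x k := by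
  induction I, hI using Nat.le_induction with
  | base => rfl
  | succ I hI ih =>
    rw [← ih]
    have hW : (Ww I0 : ℤ) ≤ Ww I := by exact_mod_cast Ww_strictMono.monotone hI
    show Ps I (Ph I x) k = Ps I x k
    apply Ps_local I
    intro j h3 h4
    exact Ph_of_mark (h I hI) (by linarith) (by linarith)

/-- The limit map. -/
noncomputable def Yf (x : XX) : XX := fun k =>
  if ∃ N, ∀ I, N ≤ I → Ps I x k = 2 then 2 else if ∃ N, ∀ I, N ≤ I → Ps I x k = 1 then 1 else 0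

lemma Yf_eq {x : XX} {k : ℤ} {c : Fin 3} {N : ℕ} (h : ∀ I, N ≤ I → Ps I x k = c) :
    Yf x k = c := by
  have key : ∀ d : Fin 3, (∃ N, ∀ I, N ≤ I → Ps I x k = d) ↔ c = d := by
    intro d
    constructor
    · rintro ⟨M, hM⟩
      rw [← h (max N M) (le_max_left _ _), hM (max N M) (le_max_right _ _)]
    · rintro rfl; exact ⟨N, h⟩
  unfold Yf
  simp only [key]
  fin_cases c <;> simp

lemma Yf_sh (t : ℤ) (x : XX) : Yf (sh t x) = sh t (Yf x) := by
  funext k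
  simp only [Yf, Ps_sh, sh]

lemma measurable_Yf : Measurable Yf := by
  refine measurable_pi_iff.2 fun k => ?_
  have key : ∀ d : Fin 3, MeasurableSet {x : XX | ∃ N, ∀ I, N ≤ I → Ps I x k = d} := by
    intro d
    have : {x : XX | ∃ N, ∀ I, N ≤ I → Ps I x k = d}
        = ⋃ N, ⋂ I, ⋂ (_ : N ≤ I), (fun x => Ps I x k) ⁻¹' {d} := by
      ext x; simp
    rw [this]
    refine MeasurableSet.iUnion fun N => MeasurableSet.iInter fun I =>
      MeasurableSet.iInter fun _ => ?_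
    exact ((measurable_pi_apply k).comp (Ps_local I).measurable) (measurableSet_singleton d)
  exact Measurable.ite (key 2) measurable_const
    (Measurable.ite (key 1) measurable_const measurable_const)

lemma Yf_ne_one {x : XX} {k : ℤ} (h : x k ≠ 1) : Yf x k = x k :=
  Yf_eq (N := 0) fun I _ => Ps_ne_one I h

lemma Yf_of_mark {I0 : ℕ} {x : XX} (h : ∀ I, I0 ≤ I → Mark I x) {k : ℤ}
    (h1 : -(Ww I0 : ℤ) ≤ k) (h2 : k ≤ Ww I0) : Yf x k = Ps I0 x k :=
  Yf_eq (N := I0) fun I hI => Ps_stab h h1 h2 I hI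

/-- The finitary certificate. -/
lemma Yf_finitary {I0 : ℕ} {x : XX} (h : ∀ I, I0 ≤ I → Mark I x) :
    ∃ r : ℕ, ∀ y : XX, (∀ n : ℤ, |n| ≤ (r : ℤ) → y n = x n) → Yf y 0 = Yf x 0 := by
  obtain ⟨I1, hI1, hty⟩ := ty_often (aa I0 * nn I0, ⟨0, fun _ => none⟩, 0, 0, 0) I0
  have ha1 : aa I0 * nn I0 < aa I1 := by
    have : aa I1 = aa I0 * nn I0 + 1 := by unfold aa; rw [hty]; rfl
    omega
  set ρ : ℕ := Ww (I1 + 1) with hρ
  let S : Set XX := {s | (∀ k : ℤ, -(Ww I0 : ℤ) ≤ k → k ≤ Ww I0 → s k = x k) ∧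
    ∀ k : ℤ, -(ρ : ℤ) ≤ k → k ≤ ρ → x k ≠ 1 → s k = x k}
  have hmark : ∀ s ∈ S, ∀ I, I0 ≤ I → I ≤ I1 → Mark I s := by
    intro s hs I h1 h2
    obtain ⟨sl, sr, hl, hr, h3, h4, h5⟩ := h I h1
    have hW : Ww (I + 1) ≤ ρ := Ww_strictMono.monotone (by omega)
    rw [Ww_succ] at hW
    have hW' : ((aa I * nn I : ℕ) : ℤ) ≤ ρ := by exact_mod_cast (by omega : aa I * nn I ≤ ρ)
    have p1 : (0 : ℤ) ≤ Ww I := Int.natCast_nonneg _
    have p2 : (0 : ℤ) ≤ aa I := Int.natCast_nonneg _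
    refine ⟨sl, sr, fun k h6 h7 => ?_, fun k h6 h7 => ?_, h3, h4, h5⟩
    · have e := hl k h6 h7
      push_cast at h7
      rw [hs.2 k (by linarith) (by linarith) (by rw [e]; decide), e]
    · have e := hr k h6 h7
      push_cast at h7
      rw [hs.2 k (by linarith) (by linarith) (by rw [e]; decide), e]
  have hclosed : ∀ s ∈ S, ∀ I, I0 ≤ I → Ph I s ∈ S := by
    intro s hs I hI
    have p0 : (0 : ℤ) ≤ Ww I0 := Int.natCast_nonneg _
    refine ⟨fun k h1 h2 => ?_, fun k h1 h2 h3 => ?_⟩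
    · rw [← hs.1 k h1 h2]
      by_cases c1 : I ≤ I1
      · have hW : (Ww I0 : ℤ) ≤ Ww I := by exact_mod_cast Ww_strictMono.monotone hI
        exact Ph_of_mark (hmark s hs I hI c1) (by linarith) (by linarith)
      push Not at c1
      by_cases c2 : aa I ≤ aa I1
      · obtain ⟨sl, sr, hl, hr, h3, h4, h5⟩ := hmark s hs I1 hI1 le_rfl
        have hW : (Ww I0 : ℤ) ≤ Ww I1 := by exact_mod_cast Ww_strictMono.monotone hI1
        have c2' : (aa I : ℤ) ≤ aa I1 := by exact_mod_cast c2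
        have hL : ((aa I1 * nn I1 : ℕ) : ℤ) ≤ (aa I * nn I : ℕ) := by exact_mod_cast L_mono c1
        refine Phi_marker (aa_pos I) _ (sl := sl) (sr := sr) (fun j h6 h7 => hl j h6 ?_)
          (fun j h6 h7 => hr j h6 ?_) (by linarith) (by linarith) (by linarith)
        · push_cast at h7 ⊢; linarith
        · push_cast at h7 ⊢; linarith
      · push Not at c2
        by_contra hc
        obtain ⟨t, h3, h4, hrun⟩ := Phi_change (aa_pos I) _ hc
        obtain ⟨sl, sr, hl, hr, h5, h6, h7⟩ := hmark s hs I0 le_rfl hI1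
        have c3 : ((aa I0 * nn I0 : ℕ) : ℤ) < aa I := by exact_mod_cast ha1.trans c2
        have p2 : (1 : ℤ) ≤ aa I0 := by exact_mod_cast aa_pos I0
        by_cases c4 : t ≤ sl
        · have e1 := hrun sl c4 (by linarith)
          have e2 := hl sl le_rfl (by push_cast; linarith)
          rw [e1] at e2; exact absurd e2 (by decide)
        · push Not at c4
          have e1 := hrun sr (by linarith) (by linarith)
          have e2 := hr sr le_rfl (by push_cast; linarith)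
          rw [e1] at e2; exact absurd e2 (by decide)
    · have e := hs.2 k h1 h2 h3
      rw [← e]
      exact Phi_ne_one (aa_pos I) _ (by rw [e]; exact h3)
  have hval : ∀ I, I0 ≤ I → ∀ s ∈ S, Ps I s 0 = Ps I0 x 0 := by
    intro I hI
    induction I, hI using Nat.le_induction with
    | base =>
      intro s hs
      apply Ps_local I0
      intro k h1 h2
      exact hs.1 k (by linarith) (by linarith)
    | succ I hI ih =>
      intro s hs
      exact ih _ (hclosed s hs I hI)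
  refine ⟨ρ, fun y hy => ?_⟩
  have hW : (Ww I0 : ℤ) ≤ ρ := by
    exact_mod_cast Ww_strictMono.monotone (by omega : I0 ≤ I1 + 1)
  have hyS : y ∈ S := ⟨fun k h1 h2 => hy k (abs_le.2 ⟨by linarith, by linarith⟩),
    fun k h1 h2 _ => hy k (abs_le.2 ⟨h1, h2⟩)⟩
  have hxS : x ∈ S := ⟨fun _ _ _ => rfl, fun _ _ _ _ => rfl⟩
  rw [Yf_eq (N := I0) fun I hI => hval I hI y hyS, Yf_eq (N := I0) fun I hI => hval I hI x hxS]

end Pool.Agent.H865Z.Ffi
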