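import Mathlib
import Pool.Agent.H865Z.Ffi.Tower

namespace Pool.Agent.H865Z.Ffi

open Classical MeasureTheory Filter Topology

lemma run_of_win {b m : ℕ} {x : XX} {t : ℤ} {u : Fin m} (h : win b m x t u = DD b) :
    Run x 2 (t + (u : ℕ) * b) b := by
  intro k h1 h2
  obtain ⟨d, hd⟩ := Int.eq_ofNat_of_zero_le (sub_nonneg.2 h1)
  have hdb : d < b := by
    have : (d : ℤ) < b := by linarith
    exact_mod_cast this
  have := congrFun h ⟨d, hdb⟩
  simp only [win, DD] at this
  rw [← this]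
  congr 1
  push_cast; linarith

lemma bad_le (i : ℕ) : mu.real {x | ¬ Mark i x} ≤ (1 / 3) ^ Ww i * (1 / 2) ^ (i + 1) := by
  have hsub : {x | ¬ Mark i x} ⊆
      {x | ∀ u, win (2 * aa i) (mm i) x (-(2 * Ww i) - 2 * aa i * mm i) u ≠ DD (2 * aa i)} ∪
      {x | ∀ u, win (2 * aa i) (mm i) x (2 * Ww i) u ≠ DD (2 * aa i)} := by
    intro x hx
    by_contra hc
    simp only [Set.mem_union, Set.mem_ofPred_eq, not_or, not_forall, not_not] at hc
    obtain ⟨⟨u, hu⟩, ⟨u', hu'⟩⟩ := hc
    apply hx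
    have h1 : ((u : ℕ) : ℤ) + 1 ≤ mm i := by exact_mod_cast u.2
    have h2 : ((u' : ℕ) : ℤ) + 1 ≤ mm i := by exact_mod_cast u'.2
    have h3 : (0 : ℤ) ≤ (u : ℕ) := Int.natCast_nonneg _
    have h4 : (0 : ℤ) ≤ (u' : ℕ) := Int.natCast_nonneg _
    have h5 : (0 : ℤ) ≤ aa i := Int.natCast_nonneg _
    have h6 : (4 * (aa i * mm i) + 4 * Ww i + 4 * rr i + 1 : ℤ) ≤ aa i * nn i := by
      exact_mod_cast L_ge i
    have h7 : (0 : ℤ) ≤ rr i := Int.natCast_nonneg _
    refine ⟨_, _, run_of_win hu, run_of_win hu', ?_, ?_, ?_⟩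
    · push_cast; nlinarith
    · push_cast; nlinarith
    · push_cast; nlinarith
  refine (measureReal_mono hsub).trans ((measureReal_union_le _ _).trans ?_)
  rw [nohit, nohit]
  have := mm_spec i
  rw [pow_succ (1 / 2 : ℝ) (i + 1)] at this
  linarith

lemma tsum_le_of_geom {Ω : Type} [MeasurableSpace Ω] (μ : Measure Ω) [IsFiniteMeasure μ]
    (s : ℕ → Set Ω) (c : ℝ) (hc : 0 ≤ c) (h : ∀ j, μ.real (s j) ≤ c * (1 / 2) ^ (j + 1)) :
    ∑' j, μ (s j) ≤ ENNReal.ofReal c := by
  have hs : HasSum (fun j : ℕ => c * (1 / 2) ^ (j + 1)) c := by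
    have := (hasSum_geometric_two).mul_left (c / 2)
    have e1 : (fun j : ℕ => c * (1 / 2) ^ (j + 1)) = fun i => c / 2 * (1 / 2) ^ i := by
      funext j; ring
    have e2 : c / 2 * 2 = c := by ring
    rw [e2] at this
    rw [e1]; exact this
  rw [← hs.tsum_eq, ENNReal.ofReal_tsum_of_nonneg (fun j => by positivity) hs.summable]
  refine ENNReal.tsum_le_tsum fun j => ?_
  rw [← ofReal_measureReal (measure_ne_top _ _)]
  exact ENNReal.ofReal_le_ofReal (h j)

lemma ae_mark : ∀ᵐ x ∂mu, ∃ I0, ∀ I, I0 ≤ I → Mark I x := by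
  have h := tsum_le_of_geom mu (fun i => {x | ¬ Mark i x}) 1 zero_le_one (fun i => by
    refine (bad_le i).trans ?_
    gcongr
    exact pow_le_one₀ (by norm_num) (by norm_num))
  have h2 := ae_eventually_notMem (μ := mu) (s := fun i => {x | ¬ Mark i x})
    (ne_top_of_le_ne_top ENNReal.ofReal_ne_top h)
  filter_upwards [h2] with x hx
  obtain ⟨N, hN⟩ := eventually_atTop.1 hx
  exact ⟨N, fun I hI => by simpa using hN I hI⟩

lemma tail_le (i : ℕ) :
    mu.real {x | ¬ ∀ I, i + 1 ≤ I → Mark I x} ≤ (1 / 3) ^ Ww (i + 1) / 2 := by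
  have h := tsum_le_of_geom mu (fun j => {x | ¬ Mark (i + 1 + j) x}) ((1 / 3) ^ Ww (i + 1) / 2)
    (by positivity) (fun j => by
      refine (bad_le (i + 1 + j)).trans ?_
      have h1 : ((1 / 3 : ℝ)) ^ Ww (i + 1 + j) ≤ (1 / 3) ^ Ww (i + 1) :=
        pow_le_pow_of_le_one (by norm_num) (by norm_num) (Ww_strictMono.monotone (by omega))
      have h2 : ((1 / 2 : ℝ)) ^ (i + 1 + j + 1) ≤ (1 / 2) ^ (j + 1 + 1) :=
        pow_le_pow_of_le_one (by norm_num) (by norm_num) (by omega)
      calc ((1 / 3 : ℝ)) ^ Ww (i + 1 + j) * (1 / 2) ^ (i + 1 + j + 1)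
          ≤ (1 / 3) ^ Ww (i + 1) * (1 / 2) ^ (j + 1 + 1) := by gcongr
        _ = _ := by ring)
  have hsub : {x | ¬ ∀ I, i + 1 ≤ I → Mark I x} ⊆ ⋃ j, {x | ¬ Mark (i + 1 + j) x} := by
    intro x hx
    simp only [Set.mem_ofPred_eq, not_forall] at hx
    obtain ⟨I, hI, hm⟩ := hx
    refine Set.mem_iUnion.2 ⟨I - (i + 1), ?_⟩
    rw [Nat.add_sub_cancel' hI]; exact hm
  have := ((measure_mono (μ := mu) hsub).trans (measure_iUnion_le _)).trans h
  exact ENNReal.toReal_le_of_le_ofReal (by positivity) this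

noncomputable def nu : Measure XX := mu.map Yf

instance nu_prob : IsProbabilityMeasure nu :=
  Measure.isProbabilityMeasure_map measurable_Yf.aemeasurable

lemma nu_sh (t : ℤ) : nu.map (sh t) = nu := by
  unfold nu
  rw [Measure.map_map (measurable_sh t) measurable_Yf]
  have : sh t ∘ Yf = Yf ∘ sh t := by funext x; exact (Yf_sh t x).symm
  rw [this, ← Measure.map_map measurable_Yf (measurable_sh t), (mu_mp t).map_eq]

lemma nu_mp (t : ℤ) : MeasurePreserving (sh t) nu nu := ⟨measurable_sh t, nu_sh t⟩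

lemma nu_factor : IsFinitaryFactor (iid uu) nu := by
  refine ⟨Yf, measurable_Yf.aemeasurable, ae_of_all _ fun x => Yf_sh 1 x, rfl, ?_⟩
  filter_upwards [ae_mark] with x hx
  obtain ⟨I0, h⟩ := hx
  obtain ⟨r, hr⟩ := Yf_finitary h
  exact ⟨r, ae_of_all _ hr⟩

lemma nu_nontrivial : ¬ ∃ y, nu = Measure.dirac y := by
  rintro ⟨y, hy⟩
  have key : ∀ c : Fin 3, c ≠ 1 → y 0 = c := by
    intro c hc
    by_contra hne
    have hm : MeasurableSet {z : XX | z 0 = c} :=
      measurableSet_of_dep _ {0} fun x y h hx => (h 0 (by simp)).symm.trans hx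
    have h0 : nu {z : XX | z 0 = c} = 0 := by
      rw [hy, Measure.dirac_apply' _ hm]
      simp [hne]
    have h1 : mu {z : XX | z 0 = c} ≤ nu {z : XX | z 0 = c} := by
      unfold nu
      rw [Measure.map_apply measurable_Yf hm]
      refine measure_mono fun x hx => ?_
      have hx' : x 0 = c := hx
      show Yf x 0 = c
      rw [Yf_ne_one (by rw [hx']; exact hc), hx']
    have h2 := mu_pt (J := Unit) (fun _ => 0) (fun _ _ _ => rfl) (fun _ => c)
    simp only [forall_const, Fintype.card_unit, pow_one] at h2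
    rw [h0] at h1
    rw [Measure.real, nonpos_iff_eq_zero.1 h1] at h2
    norm_num at h2
  have := (key 0 (by decide)).symm.trans (key 2 (by decide))
  exact absurd this (by decide)

lemma code_congr {r : ℕ} (ψ : Code r) {y y' : XX} {k k' : ℤ}
    (h : ∀ j : ℤ, -(r : ℤ) ≤ j → j ≤ r → y (k + j) = y' (k' + j)) :
    code ψ y k = code ψ y' k' := by
  unfold code
  congr 1
  funext j
  have hj : ((j : ℕ) : ℤ) < 2 * r + 1 := by exact_mod_cast j.2
  have := h (j - r) (by linarith [Int.natCast_nonneg (j : ℕ)]) (by linarith)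
  rw [show k - r + (j : ℕ) = k + ((j : ℕ) - r) by ring,
    show k' - r + (j : ℕ) = k' + ((j : ℕ) - r) by ring]
  exact this

lemma code_sh {r : ℕ} (ψ : Code r) (y : XX) (t : ℤ) : code ψ (sh t y) 0 = code ψ y t := by
  apply code_congr
  intro j _ _
  show y (0 + j + t) = y (t + j)
  congr 1; ring

lemma measurableSet_code {r : ℕ} (ψ : Code r) (k : ℤ) (o : Option Bool) :
    MeasurableSet {y : XX | code ψ y k = o} := by
  apply measurableSet_of_dep _ (Finset.Icc (k - r) (k + r))
  intro x y h hx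
  show code ψ y k = o
  rw [← code_congr ψ (y := x) (k := k) fun j h1 h2 =>
    h _ (Finset.mem_Icc.2 ⟨by linarith, by linarith⟩)]
  exact hx

lemma none_tendsto {r : ℕ} (ψ : Code r) :
    Tendsto (fun i => mu.real {x | code ψ (Ps i x) 0 = none}) atTop
      (𝓝 (nu.real {y | code ψ y 0 = none})) := by
  have h := tendsto_measure_of_ae_tendsto_indicator_of_isFiniteMeasure (μ := mu) atTop
    (As := fun i => Ps i ⁻¹' {y | code ψ y 0 = none}) (A := Yf ⁻¹' {y | code ψ y 0 = none})
    (measurable_Yf (measurableSet_code ψ 0 none))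
    (fun i => (Ps_local i).measurable (measurableSet_code ψ 0 none)) (by
      filter_upwards [ae_mark] with x hx
      obtain ⟨I0, h⟩ := hx
      refine eventually_atTop.2 ⟨max I0 r, fun I hI => ?_⟩
      have hr : (r : ℤ) ≤ Ww I := by
        have := Ww_strictMono.le_apply (x := I)
        have h2 := le_of_max_le_right hI
        exact_mod_cast h2.trans this
      have e : code ψ (Ps I x) 0 = code ψ (Yf x) 0 := by
        apply code_congr
        intro j h1 h2
        exact (Yf_of_mark (I0 := I) (fun J hJ => h J ((le_of_max_le_left hI).trans hJ))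
          (by linarith) (by linarith)).symm
      simp only [Set.mem_preimage, Set.mem_ofPred_eq, e])
  unfold nu
  rw [Measure.real, Measure.map_apply measurable_Yf (measurableSet_code ψ 0 none)]
  exact (ENNReal.tendsto_toReal (measure_ne_top _ _)).comp h

end Pool.Agent.H865Z.Ffi
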