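import Mathlib
import Pool.Agent.H865Z.Ffi.Prob

namespace Pool.Agent.H865Z.Ffi

open Classical MeasureTheory Filter Topology

lemma markov_count {Ω : Type} [MeasurableSpace Ω] (μ : Measure Ω) [IsProbabilityMeasure μ]
    (L e : ℕ) (F : Fin L → Set Ω) (hF : ∀ j, MeasurableSet (F j)) (δ : ℝ) (hδ0 : 0 ≤ δ)
    (hδ : ∀ j, μ.real (F j) ≤ δ) :
    μ.real {x | L < e * (Finset.univ.filter fun j : Fin L => x ∈ F j).card} ≤ e * δ := by
  rcases Nat.eq_zero_or_pos L with hL | hL
  · subst hL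
    have : {x | 0 < e * (Finset.univ.filter fun j : Fin 0 => x ∈ F j).card} = ∅ := by
      ext x; simp
    rw [this]; simp only [measureReal_empty]; positivity
  let f : Ω → ℝ := fun x => e * ∑ j, (F j).indicator (fun _ => (1 : ℝ)) x
  have hint : ∀ j, Integrable ((F j).indicator (fun _ => (1 : ℝ))) μ := fun j =>
    (integrable_const (1 : ℝ)).indicator (hF j)
  have hf0 : 0 ≤ᵐ[μ] f := ae_of_all _ fun x => mul_nonneg (Nat.cast_nonneg _)
    (Finset.sum_nonneg fun j _ => Set.indicator_nonneg (fun _ _ => zero_le_one) x)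
  have hfi : Integrable f μ := (integrable_finsetSum _ fun j _ => hint j).const_mul _
  have h1 := mul_meas_ge_le_integral_of_nonneg hf0 hfi (L : ℝ)
  have h2 : ∫ x, f x ∂μ ≤ e * (L * δ) := by
    simp only [f]
    rw [integral_const_mul, integral_finsetSum _ fun j _ => hint j]
    refine mul_le_mul_of_nonneg_left ?_ (Nat.cast_nonneg _)
    calc ∑ j, ∫ x, (F j).indicator (fun _ => (1 : ℝ)) x ∂μ ≤ ∑ _j : Fin L, δ := by
          refine Finset.sum_le_sum fun j _ => ?_
          rw [integral_indicator_const _ (hF j)]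
          simpa using hδ j
      _ = L * δ := by simp
  have h3 : μ.real {x | L < e * (Finset.univ.filter fun j : Fin L => x ∈ F j).card}
      ≤ μ.real {x | (L : ℝ) ≤ f x} := by
    refine measureReal_mono fun x hx => ?_
    have hx' : L < e * (Finset.univ.filter fun j : Fin L => x ∈ F j).card := hx
    show (L : ℝ) ≤ e * ∑ j, (F j).indicator (fun _ => (1 : ℝ)) x
    have : ∑ j, (F j).indicator (fun _ => (1 : ℝ)) x
        = ((Finset.univ.filter fun j : Fin L => x ∈ F j).card : ℝ) := by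
      rw [Finset.card_filter]
      push_cast
      refine Finset.sum_congr rfl fun j _ => ?_
      simp [Set.indicator_apply]
    rw [this]
    exact_mod_cast hx'.le
  have hL' : (0 : ℝ) < L := by exact_mod_cast hL
  refine h3.trans (le_of_mul_le_mul_left ?_ hL')
  nlinarith

lemma Ps_inner (i : ℕ) {x x' : XX} {L : ℕ} (h : ∀ k : ℤ, 0 ≤ k → k < L → x k = x' k) {k : ℤ}
    (h1 : (Ww i : ℤ) ≤ k) (h2 : k + Ww i < L) : Ps i x k = Ps i x' k :=
  Ps_local i x x' k fun j h3 h4 => h j (by linarith) (by linarith)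

lemma Lp_add (i : ℕ) : Lp i + 2 * (Ww i + rr i) = aa i * nn i := by
  have := L_ge i
  rw [Lp_eq]; omega

lemma code_inner (i : ℕ) {y y' : XX}
    (h : ∀ k : ℤ, (Ww i : ℤ) ≤ k → k + Ww i < (aa i * nn i : ℕ) → y k = y' k) (j : Fin (Lp i)) :
    code (ps i) y ((Ww i + rr i + j : ℕ) : ℤ) = code (ps i) y' ((Ww i + rr i + j : ℕ) : ℤ) := by
  apply code_congr
  intro d h1 h2
  have h3 : ((j : ℕ) : ℤ) < Lp i := by exact_mod_cast j.2
  have h4 : ((Lp i : ℕ) : ℤ) + 2 * (Ww i + rr i) = (aa i * nn i : ℕ) := by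
    exact_mod_cast Lp_add i
  have h5 : (0 : ℤ) ≤ (j : ℕ) := Int.natCast_nonneg _
  apply h
  · push_cast; linarith
  · rw [← h4]; push_cast; linarith

lemma Tset_inner (i : ℕ) {y y' : XX} (z : Fin (Lp i) → Bool)
    (h : ∀ k : ℤ, (Ww i : ℤ) ≤ k → k + Ww i < (aa i * nn i : ℕ) → y k = y' k)
    (hy : y ∈ Tset (ps i) (ee i) (Ww i + rr i) (Lp i) z) :
    y' ∈ Tset (ps i) (ee i) (Ww i + rr i) (Lp i) z := by
  unfold Tset at hy ⊢
  simp only [Set.mem_ofPred_eq, code_inner i h] at hy ⊢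
  exact hy

lemma key_one (i : ℕ) (ha : 0 < va i) (hb : 0 < vb i)
    (hδ : ee i * mu.real {x | code (ps i) (Ps i x) 0 = none} ≤ 1 / 2) :
    1 / 4 ≤ wt (HH (aa i)) (DD (aa i)) (AA i (zs i)) / piv (va i) (vb i) (zs i)
      * (va i + vb i) ^ Lp i * (1 + 6 / 3 ^ aa i) ^ nn i := by
  let G : Set (Wd (aa i) (nn i)) := {w | ee i * (Finset.univ.filter fun j : Fin (Lp i) =>
    code (ps i) (Ps i (ext w)) ((Ww i + rr i + j : ℕ) : ℤ) = none).card ≤ Lp i}
  have hGc : mu.real {x | win (aa i) (nn i) x 0 ∈ Gᶜ} ≤ 1 / 2 := by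
    have h := markov_count mu (Lp i) (ee i)
      (fun j => Ps i ⁻¹' {y | code (ps i) y ((Ww i + rr i + j : ℕ) : ℤ) = none})
      (fun j => (Ps_local i).measurable (measurableSet_code _ _ _))
      (mu.real {x | code (ps i) (Ps i x) 0 = none}) measureReal_nonneg (fun j => by
        have hm : MeasurableSet {x | code (ps i) (Ps i x) 0 = none} :=
          (Ps_local i).measurable (measurableSet_code (ps i) 0 none)
        rw [← (mu_mp ((Ww i + rr i + j : ℕ) : ℤ)).measureReal_preimage hm.nullMeasurableSet]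
        apply le_of_eq
        congr 1
        ext x
        simp only [Set.mem_preimage, Set.mem_ofPred_eq, Ps_sh, code_sh])
    refine le_trans (le_of_eq ?_) (h.trans hδ)
    congr 1
    ext x
    have e : ∀ j : Fin (Lp i), code (ps i) (Ps i (ext (win (aa i) (nn i) x 0)))
        ((Ww i + rr i + j : ℕ) : ℤ) = code (ps i) (Ps i x) ((Ww i + rr i + j : ℕ) : ℤ) :=
      code_inner i fun k h1 h2 => Ps_inner i (L := aa i * nn i)
        (fun k h3 h4 => by rw [ext_win x 0 h3 h4, zero_add]) h1 h2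
    simp only [G, Set.mem_compl_iff, Set.mem_ofPred_eq, not_le, Set.mem_preimage, e]
  have hG : 1 / 2 ≤ mu.real {x | win (aa i) (nn i) x 0 ∈ G} := by
    have h1 : mu.real Set.univ ≤ mu.real ({x | win (aa i) (nn i) x 0 ∈ G} ∪
        {x | win (aa i) (nn i) x 0 ∈ Gᶜ}) := measureReal_mono fun x _ => by
      by_cases hx : win (aa i) (nn i) x 0 ∈ G
      · exact Or.inl hx
      · exact Or.inr hx
    have h2 := measureReal_union_le (μ := mu) {x | win (aa i) (nn i) x 0 ∈ G}
      {x | win (aa i) (nn i) x 0 ∈ Gᶜ}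
    simp only [probReal_univ] at h1
    linarith
  rw [win_law] at hG
  have h1 := wt_lower (HH (aa i)) (DD (aa i)) (HH_ne_DD (aa_pos i)) (nn i) G (by convert hG)
  rw [card_blk] at h1
  refine h1.trans (mul_le_mul_of_nonneg_right ?_ (by positivity))
  have hpiv : ∀ z : Fin (Lp i) → Bool, 0 < piv (va i) (vb i) z := fun z =>
    Finset.prod_pos fun j _ => by split_ifs <;> assumption
  have h2 : wt (HH (aa i)) (DD (aa i)) G ≤ ∑ z, wt (HH (aa i)) (DD (aa i)) (AA i z) := by
    unfold wt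
    rw [Finset.sum_comm]
    refine Finset.sum_le_sum fun w _ => ?_
    have hnn : ∀ z : Fin (Lp i) → Bool, 0 ≤ (if w ∈ AA i z then
        ∏ u, kap (HH (aa i)) (DD (aa i)) (w u) else 0) := fun z => by
      split_ifs
      · exact Finset.prod_nonneg fun u _ => kap_nonneg _ _ _
      · exact le_rfl
    by_cases hw : w ∈ G
    · let z : Fin (Lp i) → Bool := fun j =>
        (code (ps i) (Ps i (ext w)) ((Ww i + rr i + j : ℕ) : ℤ)).getD true
      have hz : w ∈ AA i z := by
        rw [mem_AA]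
        refine ⟨hw, fun j b hj => ?_⟩
        simp only [z, hj, Option.getD_some]
      refine le_trans ?_ (Finset.single_le_sum (fun z _ => hnn z) (Finset.mem_univ z))
      simp only [hw, hz, if_true, le_refl]
    · simp only [hw, if_false]
      exact Finset.sum_nonneg fun z _ => hnn z
  refine h2.trans ?_
  have h3 : (va i + vb i) ^ Lp i = ∑ z : Fin (Lp i) → Bool, piv (va i) (vb i) z := by
    unfold piv
    rw [sum_prod_pi (fun (_ : Fin (Lp i)) (b : Bool) => if b then vb i else va i)]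
    simp [add_comm]
  rw [h3, Finset.mul_sum]
  refine Finset.sum_le_sum fun z _ => ?_
  have := zs_max i z
  rwa [div_le_iff₀ (hpiv z)] at this

lemma key_two (i : ℕ) :
    (1 / 3) ^ (2 * aa i + 1) *
      wt (HH (aa i)) (DD (aa i)) (AA i (zs i)) ^ (1 - 1 / (2 * (3 : ℝ) ^ aa i)) ≤
      2 * nu.real (Tset (ps i) (ee i) (Ww i + rr i) (Lp i) (zs i)) := by
  have h1 := wt_rpow_le_gg (HH (aa i)) (DD (aa i)) (HH_ne_DD (aa_pos i)) (nn i) (AA i (zs i))
  rw [card_blk] at h1
  set S := Steerable (HH (aa i)) (DD (aa i)) (AA i (zs i)) with hS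
  set E : Set XX := {x | Pre (aa i) x 0 ∧ win (aa i) (nn i) x 0 ∈ S} with hE
  have h2 : mu.real E = (1 / 3) ^ (2 * aa i + 1) * gg (HH (aa i)) (DD (aa i)) (AA i (zs i)) := by
    rw [hE, pre_win_law]
    unfold gg
    congr 1
  set Gd : Set XX := {x | ∀ I, i + 1 ≤ I → Mark I x} with hGd
  have h3 : mu.real (E ∩ Gd) ≤ nu.real (Tset (ps i) (ee i) (Ww i + rr i) (Lp i) (zs i)) := by
    have hsub : E ∩ Gd ⊆ Yf ⁻¹' (Tset (ps i) (ee i) (Ww i + rr i) (Lp i) (zs i)) := by
      rintro x ⟨⟨hp, hw⟩, hg⟩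
      obtain ⟨w, hwA, hw2⟩ := Phi_steer (aa_pos i) (AA i (zs i)) hp hw
      rw [mem_AA] at hwA
      refine Tset_inner i _ (fun k h4 h5 => ?_) hwA
      have hW : ((Ww (i + 1) : ℕ) : ℤ) = Ww i + ((aa i * nn i : ℕ) + 2 * aa i + 1) := by
        rw [Ww_succ]; push_cast; ring
      have p1 : (0 : ℤ) ≤ Ww i := Int.natCast_nonneg _
      have p2 : (0 : ℤ) ≤ aa i := Int.natCast_nonneg _
      have p3 : (0 : ℤ) ≤ (aa i * nn i : ℕ) := Int.natCast_nonneg _
      rw [Yf_of_mark hg (by linarith) (by linarith)]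
      exact Ps_inner i (L := aa i * nn i) (fun k h6 h7 => (hw2 k h6 h7).symm) h4 h5
    refine (measureReal_mono hsub).trans ?_
    exact ENNReal.toReal_mono (measure_ne_top _ _)
      (Measure.le_map_apply measurable_Yf.aemeasurable _)
  have h4 : mu.real E ≤ 2 * mu.real (E ∩ Gd) := by
    by_cases hne : S.Nonempty
    · obtain ⟨w0, hw0⟩ := hne
      have h5 : (1 / 3) ^ Ww (i + 1) ≤ mu.real E := by
        rw [hE, pre_win_law]
        have : (1 / (Fintype.card (Fin (aa i) → Fin 3) : ℝ)) ^ nn i ≤ ∑ w, if w ∈ S then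
            (1 / (Fintype.card (Fin (aa i) → Fin 3) : ℝ)) ^ nn i else 0 := by
          refine le_trans ?_ (Finset.single_le_sum (f := fun w => if w ∈ S then
            (1 / (Fintype.card (Fin (aa i) → Fin 3) : ℝ)) ^ nn i else 0)
            (fun w _ => ?_) (Finset.mem_univ w0))
          · simp only [hw0, if_true, le_refl]
          · split_ifs
            · positivity
            · exact le_rfl
        refine le_trans ?_ (mul_le_mul_of_nonneg_left this (by positivity))
        rw [card_blk, ← one_div_pow, ← pow_mul, ← pow_add]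
        exact pow_le_pow_of_le_one (by norm_num) (by norm_num) (by rw [Ww_succ]; omega)
      have h6 := tail_le i
      have h7 : mu.real E ≤ mu.real ((E ∩ Gd) ∪ {x | ¬ ∀ I, i + 1 ≤ I → Mark I x}) :=
        measureReal_mono fun x hx => by
          by_cases hg : x ∈ Gd
          · exact Or.inl ⟨hx, hg⟩
          · exact Or.inr hg
      have h8 := measureReal_union_le (μ := mu) (E ∩ Gd) {x | ¬ ∀ I, i + 1 ≤ I → Mark I x}
      linarith
    · have : E = ∅ := by
        ext x
        simp only [hE, Set.mem_ofPred_eq, Set.mem_empty_iff_false, iff_false, not_and]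
        intro _ hw
        exact hne ⟨_, hw⟩
      rw [this]; simp
  calc (1 / 3) ^ (2 * aa i + 1) *
      wt (HH (aa i)) (DD (aa i)) (AA i (zs i)) ^ (1 - 1 / (2 * (3 : ℝ) ^ aa i))
      ≤ (1 / 3) ^ (2 * aa i + 1) * gg (HH (aa i)) (DD (aa i)) (AA i (zs i)) :=
        mul_le_mul_of_nonneg_left h1 (by positivity)
    _ = mu.real E := h2.symm
    _ ≤ _ := by linarith

end Pool.Agent.H865Z.Ffi
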