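import Mathlib

namespace Pool.Agent.H865Z.Ffi

lemma le_sq_of_rpow_le {x γ C : ℝ} (hγ : 1 / 2 ≤ γ) (hC : 1 ≤ C) (h : x ^ γ ≤ C) :
    x ≤ C ^ 2 := by
  by_cases hx : x ≤ 1
  · nlinarith
  · push Not at hx
    have h1 : x ^ (1 / 2 : ℝ) ≤ x ^ γ := Real.rpow_le_rpow_of_exponent_le hx.le hγ
    have h2 : x = x ^ (1 / 2 : ℝ) * x ^ (1 / 2 : ℝ) := by
      rw [← Real.rpow_add (by linarith)]; norm_num
    have h3 : 0 ≤ x ^ (1 / 2 : ℝ) := Real.rpow_nonneg (by linarith) _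
    nlinarith

lemma gamma_bounds (a : ℕ) : 1 / 2 ≤ 1 - 1 / (2 * (3 : ℝ) ^ a) ∧ 1 - 1 / (2 * (3 : ℝ) ^ a) < 1 := by
  have h1 : (1 : ℝ) ≤ 3 ^ a := one_le_pow₀ (by norm_num)
  have h2 : 1 / (2 * (3 : ℝ) ^ a) ≤ 1 / 2 := by
    apply one_div_le_one_div_of_le <;> linarith
  have h3 : 0 < 1 / (2 * (3 : ℝ) ^ a) := by positivity
  constructor <;> linarith

lemma params (p : ℝ) (hp0 : 0 < p) (hp1 : p < 1) :
    ∃ (a : ℕ) (v0 v1 : ℚ) (θ : ℝ), 1 ≤ a ∧ (0 : ℝ) < v0 ∧ (0 : ℝ) < v1 ∧ 0 < θ ∧ θ ≤ 1 ∧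
      1 - p + θ ≤ (v0 : ℝ) ^ (1 - 1 / (2 * (3 : ℝ) ^ a)) ∧
      p + θ ≤ (v1 : ℝ) ^ (1 - 1 / (2 * (3 : ℝ) ^ a)) ∧
      Real.exp (12 / (a * 3 ^ a)) * (v0 + v1) < 1 := by
  set pm : ℝ := max p (1 - p) with hpm
  have hpm0 : 0 < pm := lt_max_of_lt_left hp0
  have hpm1 : pm < 1 := max_lt hp1 (by linarith)
  have hh : 0 < -Real.log pm := by have := Real.log_neg hpm0 hpm1; linarith
  obtain ⟨a, ha⟩ := exists_nat_gt (24 / (-Real.log pm))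
  have ha0 : (0 : ℝ) < a := lt_trans (by positivity) ha
  have ha1 : 1 ≤ a := by exact_mod_cast ha0
  obtain ⟨hγ1, hγ2⟩ := gamma_bounds a
  set N : ℝ := 3 ^ a with hN
  have hN1 : 1 ≤ N := one_le_pow₀ (by norm_num)
  set γ : ℝ := 1 - 1 / (2 * N) with hγ
  have hγ0 : 0 < γ := by linarith
  have hβ : 1 + 1 / (2 * N) ≤ 1 / γ := by
    rw [le_div_iff₀ hγ0, hγ]
    have : 0 ≤ 1 / (2 * N) * (1 / (2 * N)) := by positivity
    nlinarith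
  have hpow : ∀ x : ℝ, 0 < x → x ≤ pm → x ^ (1 / γ) ≤ x * pm ^ (1 / (2 * N)) := by
    intro x hx hxp
    calc x ^ (1 / γ) ≤ x ^ (1 + 1 / (2 * N)) :=
          Real.rpow_le_rpow_of_exponent_ge hx (by linarith) hβ
      _ = x * x ^ (1 / (2 * N)) := by rw [Real.rpow_add hx, Real.rpow_one]
      _ ≤ x * pm ^ (1 / (2 * N)) :=
          mul_le_mul_of_nonneg_left (Real.rpow_le_rpow hx.le hxp (by positivity)) hx.le
  have hlt : pm ^ (1 / (2 * N)) < Real.exp (-(12 / (a * N))) := by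
    rw [Real.rpow_def_of_pos hpm0, Real.exp_lt_exp]
    rw [div_lt_iff₀ hh] at ha
    have e1 : Real.log pm * (1 / (2 * N)) = (a * Real.log pm / 2) / (a * N) := by
      field_simp
    have e2 : -(12 / (a * N)) = (-12) / (a * N) := by ring
    rw [e1, e2]
    apply div_lt_div_of_pos_right _ (by positivity)
    linarith
  have hsum : (1 - p) ^ (1 / γ) + p ^ (1 / γ) < Real.exp (-(12 / (a * N))) := by
    have h1 := hpow (1 - p) (by linarith) (le_max_right _ _)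
    have h2 := hpow p hp0 (le_max_left _ _)
    linarith
  set gap := Real.exp (-(12 / (a * N))) - ((1 - p) ^ (1 / γ) + p ^ (1 / γ)) with hgap
  have hgap0 : 0 < gap := by linarith
  obtain ⟨v0, hv0, hv0'⟩ := exists_rat_btwn (show (1 - p) ^ (1 / γ) < (1 - p) ^ (1 / γ) + gap / 2
    by linarith)
  obtain ⟨v1, hv1, hv1'⟩ := exists_rat_btwn (show p ^ (1 / γ) < p ^ (1 / γ) + gap / 2
    by linarith)
  have hback : ∀ x v : ℝ, 0 < x → x ^ (1 / γ) < v → x < v ^ γ := by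
    intro x v hx hv
    have := Real.rpow_lt_rpow (Real.rpow_nonneg hx.le _) hv hγ0
    rwa [← Real.rpow_mul hx.le, one_div_mul_cancel hγ0.ne', Real.rpow_one] at this
  have hu0 := hback (1 - p) v0 (by linarith) hv0
  have hu1 := hback p v1 hp0 hv1
  refine ⟨a, v0, v1, min (min ((v0 : ℝ) ^ γ - (1 - p)) ((v1 : ℝ) ^ γ - p)) 1, ha1,
    lt_trans (Real.rpow_pos_of_pos (by linarith) _) hv0,
    lt_trans (Real.rpow_pos_of_pos hp0 _) hv1, ?_, min_le_right _ _, ?_, ?_, ?_⟩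
  · exact lt_min (lt_min (by linarith) (by linarith)) one_pos
  · have := (min_le_left (min ((v0 : ℝ) ^ γ - (1 - p)) ((v1 : ℝ) ^ γ - p)) 1).trans
      (min_le_left _ _)
    linarith
  · have := (min_le_left (min ((v0 : ℝ) ^ γ - (1 - p)) ((v1 : ℝ) ^ γ - p)) 1).trans
      (min_le_right _ _)
    linarith
  · have h1 : (v0 : ℝ) + v1 < Real.exp (-(12 / (a * N))) := by linarith
    have h2 := mul_lt_mul_of_pos_left h1 (Real.exp_pos (12 / (a * N)))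
    rwa [← Real.exp_add, add_neg_cancel, Real.exp_zero] at h2

lemma final_num (a n L : ℕ) (w π v ϑ T γ : ℝ) (ha : 1 ≤ a) (hn : a * n ≤ 2 * L) (hπ : 0 < π)
    (hw : 0 ≤ w) (hv : 0 ≤ v) (hϑ0 : 0 < ϑ) (hϑ1 : ϑ ≤ 1) (hγ : 1 / 2 ≤ γ)
    (K1 : 1 / 4 ≤ w / π * v ^ L * (1 + 6 / 3 ^ a) ^ n)
    (K2 : (1 / 3) ^ (2 * a + 1) * w ^ γ ≤ 2 * T) (K3 : ϑ ^ L * T ≤ π ^ γ) :
    1 / 4 ≤ 4 * 9 ^ (2 * a + 1) * (Real.exp (12 / (a * 3 ^ a)) * v / ϑ ^ 2) ^ L := by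
  have hϑL : 0 < ϑ ^ L := pow_pos hϑ0 L
  have hϑL1 : ϑ ^ L ≤ 1 := pow_le_one₀ hϑ0.le hϑ1
  have h3 : (1 : ℝ) ≤ 3 ^ (2 * a + 1) := one_le_pow₀ (by norm_num)
  set C : ℝ := 2 * 3 ^ (2 * a + 1) / ϑ ^ L with hC
  have hC1 : 1 ≤ C := by
    rw [hC, le_div_iff₀ hϑL]; linarith
  have hπγ : 0 < π ^ γ := Real.rpow_pos_of_pos hπ _
  have h1 : (w / π) ^ γ ≤ C := by
    rw [Real.div_rpow hw hπ.le, div_le_iff₀ hπγ, hC, div_mul_eq_mul_div, le_div_iff₀ hϑL]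
    have e : w ^ γ = 3 ^ (2 * a + 1) * ((1 / 3) ^ (2 * a + 1) * w ^ γ) := by
      rw [← mul_assoc, ← mul_pow]; norm_num
    calc w ^ γ * ϑ ^ L = 3 ^ (2 * a + 1) * ((1 / 3) ^ (2 * a + 1) * w ^ γ) * ϑ ^ L := by rw [← e]
      _ ≤ 3 ^ (2 * a + 1) * (2 * T) * ϑ ^ L := by gcongr
      _ = 2 * 3 ^ (2 * a + 1) * (ϑ ^ L * T) := by ring
      _ ≤ 2 * 3 ^ (2 * a + 1) * π ^ γ := by gcongr
  have h2 := le_sq_of_rpow_le hγ hC1 h1
  have ha0 : (0 : ℝ) < a := by exact_mod_cast ha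
  have h4 : (1 + 6 / 3 ^ a : ℝ) ^ n ≤ Real.exp (12 / (a * 3 ^ a)) ^ L := by
    calc (1 + 6 / 3 ^ a : ℝ) ^ n ≤ Real.exp (6 / 3 ^ a) ^ n := by
          apply pow_le_pow_left₀ (by positivity)
          linarith [Real.add_one_le_exp (6 / 3 ^ a : ℝ)]
      _ ≤ Real.exp (12 / (a * 3 ^ a)) ^ L := by
          rw [← Real.exp_nat_mul, ← Real.exp_nat_mul, Real.exp_le_exp]
          have hn' : (a : ℝ) * n ≤ 2 * L := by exact_mod_cast hn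
          have e1 : (n : ℝ) * (6 / 3 ^ a) = (a * n) * 6 / (a * 3 ^ a) := by field_simp
          have e2 : (L : ℝ) * (12 / (a * 3 ^ a)) = (2 * L) * 6 / (a * 3 ^ a) := by ring
          rw [e1, e2]
          gcongr
  calc (1 / 4 : ℝ) ≤ w / π * v ^ L * (1 + 6 / 3 ^ a) ^ n := K1
    _ ≤ C ^ 2 * v ^ L * Real.exp (12 / (a * 3 ^ a)) ^ L := by gcongr
    _ = _ := by
      have e9 : (9 : ℝ) ^ (2 * a + 1) = (3 ^ (2 * a + 1)) ^ 2 := by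
        rw [← pow_mul, mul_comm (2 * a + 1) 2, pow_mul]; norm_num
      rw [hC, e9, div_pow, div_pow, mul_pow, mul_pow, ← pow_mul ϑ 2 L, ← pow_mul ϑ L 2,
        mul_comm L 2]
      field_simp
      ring

end Pool.Agent.H865Z.Ffi
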