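import Mathlib
import Pool.Agent.H865Z.Ffi.Key
import Pool.Agent.H865Z.Ffi.Num

namespace Pool.Agent.H865Z.Ffi

open Classical MeasureTheory Filter Topology

def Fset {m : ℕ} (c0 : Fin m) (e s L : ℕ) (z : Fin L → Bool) : Set (ℤ → Fin m) :=
  {w | e * (Finset.univ.filter fun j : Fin L =>
    decide (w ((s + j : ℕ) : ℤ) = c0) ≠ z j).card ≤ L}

lemma iid_upper {m : ℕ} (q : Measure (Fin m)) [IsProbabilityMeasure q] (c0 : Fin m)
    (e s L : ℕ) (z : Fin L → Bool) (θ ϑ u0 u1 : ℝ) (hθ0 : 0 < θ) (hϑ0 : 0 < ϑ)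
    (hϑ1 : ϑ ≤ 1) (he : ϑ ^ e ≤ θ) (h0 : 1 - q.real {c0} + θ ≤ u0) (h1 : q.real {c0} + θ ≤ u1) :
    ϑ ^ L * (iid q).real (Fset c0 e s L z) ≤ piv u0 u1 z := by
  let f : (ℤ → Fin m) → (Fin L → Fin m) := fun x j => x ((s + j : ℕ) : ℤ)
  have hf : Measurable f := measurable_pi_iff.2 fun j => measurable_pi_apply _
  let S : Set (Fin L → Fin m) := {w | e * (Finset.univ.filter fun j : Fin L =>
    decide (w j = c0) ≠ z j).card ≤ L}
  have h := real_sum (iid q) f Set.univ (fun w => by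
    rw [Set.univ_inter]; exact hf (measurableSet_singleton _)) S
  simp only [Set.univ_inter] at h
  have hF : Fset c0 e s L z = f ⁻¹' S := rfl
  have hpt : ∀ w, (iid q).real (f ⁻¹' {w}) = ∏ j, q.real {w j} := by
    intro w
    rw [← iid_pt q (fun j : Fin L => ((s + j : ℕ) : ℤ)) (fun a b h => by
      have : s + (a : ℕ) = s + b := Nat.cast_injective (R := ℤ) h
      exact Fin.ext (by omega)) w]
    congr 1
    ext x
    simp only [Set.mem_preimage, Set.mem_singleton_iff, Set.mem_ofPred_eq, funext_iff, f]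
  let g : Fin L → Fin m → ℝ := fun j c => (if decide (c = c0) ≠ z j then θ else 1) * q.real {c}
  have hg0 : ∀ j c, 0 ≤ g j c := fun j c => mul_nonneg (by split_ifs <;> linarith)
    measureReal_nonneg
  rw [hF, h, Finset.mul_sum]
  have h2 : ∀ w : Fin L → Fin m, ϑ ^ L * (if w ∈ S then (iid q).real (f ⁻¹' {w}) else 0)
      ≤ ∏ j, g j (w j) := by
    intro w
    by_cases hw : w ∈ S
    · rw [if_pos hw, hpt]
      simp only [g]
      rw [Finset.prod_mul_distrib]
      refine mul_le_mul_of_nonneg_right ?_ (Finset.prod_nonneg fun j _ => measureReal_nonneg)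
      rw [Finset.prod_ite]
      simp only [Finset.prod_const, one_pow, mul_one]
      calc ϑ ^ L ≤ ϑ ^ (e * (Finset.univ.filter fun j : Fin L => decide (w j = c0) ≠ z j).card) :=
            pow_le_pow_of_le_one hϑ0.le hϑ1 hw
        _ = (ϑ ^ e) ^ (Finset.univ.filter fun j : Fin L => decide (w j = c0) ≠ z j).card :=
            pow_mul _ _ _
        _ ≤ _ := pow_le_pow_left₀ (by positivity) he _
    · rw [if_neg hw, mul_zero]
      exact Finset.prod_nonneg fun j _ => hg0 j _
  refine (Finset.sum_le_sum fun w _ => by convert h2 w).trans ?_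
  rw [sum_prod_pi g]
  unfold piv
  refine Finset.prod_le_prod (fun j _ => Finset.sum_nonneg fun c _ => hg0 j c) fun j _ => ?_
  have hsum : ∑ c, q.real {c} = 1 := by
    rw [sum_measureReal_singleton]; simp
  have hq0 : ∀ c, 0 ≤ q.real {c} := fun c => measureReal_nonneg
  by_cases hz : z j = true
  · have : ∀ c, g j c ≤ (if c = c0 then q.real {c} else 0) + θ * q.real {c} := by
      intro c
      have := mul_nonneg hθ0.le (hq0 c)
      by_cases hc : c = c0
      · simp only [g, hz, hc, decide_true, ne_eq, not_true, if_false, if_true]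
        rw [hc] at this; linarith
      · simp [g, hz, hc]
    refine (Finset.sum_le_sum fun c _ => this c).trans ?_
    rw [Finset.sum_add_distrib, ← Finset.mul_sum, hsum, if_pos hz]
    simp only [Finset.sum_ite_eq', Finset.mem_univ, if_true]
    linarith
  · have hz' : z j = false := by simpa using hz
    have : ∀ c, g j c ≤ (q.real {c} - if c = c0 then q.real {c} else 0) + θ * q.real {c} := by
      intro c
      have := mul_nonneg hθ0.le (hq0 c)
      by_cases hc : c = c0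
      · simp [g, hz', hc]
      · simp only [g, hz', hc, decide_false, ne_eq, not_true, if_false]
        linarith
    refine (Finset.sum_le_sum fun c _ => this c).trans ?_
    rw [Finset.sum_add_distrib, ← Finset.mul_sum, Finset.sum_sub_distrib, hsum, if_neg hz]
    simp only [Finset.sum_ite_eq', Finset.mem_univ, if_true]
    linarith

section
variable {m : ℕ} (φ : XX → (ℤ → Fin m)) (c0 : Fin m)

noncomputable def psi (r : ℕ) : Code r := fun u =>
  if ∀ᵐ y ∂nu, (fun j : Fin (2 * r + 1) => y (0 - r + (j : ℕ))) = u → φ y 0 = c0 then some true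
  else if ∀ᵐ y ∂nu, (fun j : Fin (2 * r + 1) => y (0 - r + (j : ℕ))) = u → φ y 0 ≠ c0 then
    some false else none

lemma psi_correct (r : ℕ) :
    ∀ᵐ y ∂nu, ∀ b, code (psi φ c0 r) y 0 = some b → decide (φ y 0 = c0) = b := by
  have h : ∀ u : Fin (2 * r + 1) → Fin 3, ∀ᵐ y ∂nu,
      (fun j : Fin (2 * r + 1) => y (0 - r + (j : ℕ))) = u → ∀ b, psi φ c0 r u = some b →
        decide (φ y 0 = c0) = b := by
    intro u
    unfold psi
    split_ifs with h1 h2
    · filter_upwards [h1] with y hy hu b hb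
      cases hb; simpa using hy hu
    · filter_upwards [h2] with y hy hu b hb
      cases hb; simpa using hy hu
    · exact ae_of_all _ fun y _ b hb => by cases hb
  filter_upwards [ae_all_iff.2 h] with y hy
  exact hy _ rfl

lemma psi_none_tendsto
    (hfin : ∀ᵐ x ∂nu, ∃ r : ℕ, ∀ᵐ y ∂nu, (∀ n : ℤ, |n| ≤ (r : ℤ) → y n = x n) → φ y 0 = φ x 0) :
    Tendsto (fun r => nu.real {y | code (psi φ c0 r) y 0 = none}) atTop (𝓝 0) := by
  have h := tendsto_measure_of_ae_tendsto_indicator_of_isFiniteMeasure (μ := nu) atTop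
    (As := fun r => {y | code (psi φ c0 r) y 0 = none}) (A := ∅) MeasurableSet.empty
    (fun r => measurableSet_code _ 0 none) (by
      filter_upwards [hfin] with x hx
      obtain ⟨r0, h⟩ := hx
      refine eventually_atTop.2 ⟨r0, fun r hr => ?_⟩
      have hr' : (r0 : ℤ) ≤ r := by exact_mod_cast hr
      have h' : ∀ᵐ y ∂nu, (fun j : Fin (2 * r + 1) => y (0 - r + (j : ℕ)))
          = (fun j : Fin (2 * r + 1) => x (0 - r + (j : ℕ))) → φ y 0 = φ x 0 := by
        filter_upwards [h] with y hy hu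
        apply hy
        intro n hn
        rw [abs_le] at hn
        obtain ⟨d, hd⟩ := Int.eq_ofNat_of_zero_le (a := n + r) (by linarith)
        have := congrFun hu ⟨d, by omega⟩
        simp only at this
        rwa [show (0 : ℤ) - r + d = n by linarith] at this
      simp only [Set.mem_empty_iff_false, iff_false]
      show ¬ code (psi φ c0 r) x 0 = none
      unfold code psi
      by_cases hc : φ x 0 = c0
      · rw [if_pos (by rw [← hc]; exact h')]; simp
      · split_ifs with h1 h2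
        · simp
        · simp
        · exfalso
          apply h2
          filter_upwards [h'] with y hy hu
          rw [hy hu]; exact hc)
  have := (ENNReal.tendsto_toReal (measure_ne_top _ _)).comp h
  rw [measure_empty, ENNReal.toReal_zero] at this
  exact this

lemma ae_sh (heq : ∀ᵐ y ∂nu, φ (shift y) = shift (φ y)) :
    ∀ᵐ y ∂nu, ∀ k : ℕ, φ (sh k y) = sh k (φ y) := by
  refine ae_all_iff.2 fun k => ?_
  induction k with
  | zero => exact ae_of_all _ fun y => by simp [sh_zero]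
  | succ k ih =>
    filter_upwards [ih, (nu_mp k).quasiMeasurePreserving.ae heq] with y h1 h2
    rw [shift_eq_sh, shift_eq_sh, sh_sh, h1, sh_sh] at h2
    rw [show ((k + 1 : ℕ) : ℤ) = 1 + k by push_cast; ring]
    exact h2

lemma psi_correct_all (heq : ∀ᵐ y ∂nu, φ (shift y) = shift (φ y)) (r : ℕ) :
    ∀ᵐ y ∂nu, ∀ (k : ℕ) (b : Bool), code (psi φ c0 r) y k = some b →
      decide (φ y k = c0) = b := by
  have h := ae_all_iff.2 fun k : ℕ => (nu_mp k).quasiMeasurePreserving.ae (psi_correct φ c0 r)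
  filter_upwards [h, ae_sh φ heq] with y h1 h2 k b hb
  have := h1 k b (by rw [code_sh]; exact hb)
  rw [h2 k] at this
  simpa [sh] using this

lemma T_le (hφ : AEMeasurable φ nu) {r : ℕ} (ψ : Code r)
    (hψ : ∀ᵐ y ∂nu, ∀ (k : ℕ) (b : Bool), code ψ y k = some b → decide (φ y k = c0) = b)
    (e s L : ℕ) (z : Fin L → Bool) :
    nu (Tset ψ e s L z) ≤ nu.map φ (Fset c0 e s L z) := by
  refine le_trans (measure_mono_ae ?_) (Measure.le_map_apply hφ _)
  filter_upwards [hψ] with y hy hT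
  refine le_trans (Nat.mul_le_mul_left e (Finset.card_le_card fun j hj => ?_)) hT.1
  simp only [Finset.mem_filter, Finset.mem_univ, true_and] at hj ⊢
  by_contra hne
  obtain ⟨b, hb⟩ := Option.ne_none_iff_exists'.1 hne
  exact hj ((hy _ b hb).trans (hT.2 j b hb))

end

lemma level_exists (a r : ℕ) (ha : 1 ≤ a) (ψ : Code r) (v0 v1 : ℚ) (e k : ℕ) :
    ∃ i, k ≤ i ∧ aa i = a ∧ va i = v0 ∧ vb i = v1 ∧ ee i = e ∧
      ∀ y t, code (ps i) y t = code ψ y t := by
  obtain ⟨i, hi, h⟩ := ty_often (a - 1, ⟨r, ψ⟩, v0, v1, e) k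
  refine ⟨i, hi, ?_, ?_, ?_, ?_, ?_⟩
  · unfold aa; rw [h]; show a - 1 + 1 = a; omega
  · unfold va; rw [h]
  · unfold vb; rw [h]
  · unfold ee; rw [h]
  · intro y t
    have : ∀ σ : (Σ r : ℕ, Code r), σ = ⟨r, ψ⟩ → code σ.2 y t = code ψ y t := by
      rintro _ rfl; rfl
    exact this (ty i).2.1 (by rw [h])

lemma no_factor {m : ℕ} (q : Measure (Fin m)) [IsProbabilityMeasure q] (c0 : Fin m)
    (hp0 : 0 < q.real {c0}) (hp1 : q.real {c0} < 1) : ¬ IsFinitaryFactor nu (iid q) := by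
  rintro ⟨φ, hφ, heq, hmap, hfin⟩
  obtain ⟨a, v0, v1, θ, ha, hv0, hv1, hθ0, hθ1, hu0, hu1, hρ⟩ := params _ hp0 hp1
  set ρ : ℝ := Real.exp (12 / (a * 3 ^ a)) * (v0 + v1) with hρdef
  have hρ0 : 0 < ρ := by positivity
  set ϑ : ℝ := (1 + ρ) / 2 with hϑ
  have hϑ0 : 0 < ϑ := by positivity
  have hϑ1 : ϑ < 1 := by linarith
  have hρϑ : ρ / ϑ ^ 2 < 1 := by
    rw [div_lt_one (by positivity), hϑ]; nlinarith
  obtain ⟨e, he⟩ := exists_pow_lt_of_lt_one hθ0 hϑ1
  have hδ : (0 : ℝ) < 1 / (2 * (e + 1)) := by positivity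
  obtain ⟨r, hr⟩ := ((psi_none_tendsto φ c0 hfin).eventually (gt_mem_nhds hδ)).exists
  obtain ⟨i0, hi0⟩ := eventually_atTop.1
    ((none_tendsto (psi φ c0 r)).eventually (gt_mem_nhds hr))
  obtain ⟨K, hK⟩ := exists_pow_lt_of_lt_one
    (show (0 : ℝ) < 1 / 4 / (4 * 9 ^ (2 * a + 1)) by positivity) hρϑ
  obtain ⟨i, hi, e1, e2, e3, e4, e5⟩ := level_exists a r ha (psi φ c0 r) v0 v1 e (max i0 K)
  have K1 := key_one i (by rw [e2]; exact hv0) (by rw [e3]; exact hv1) (by
    simp only [e5, e4]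
    have h1 := hi0 i (le_of_max_le_left hi)
    have h2 : (e : ℝ) * (1 / (2 * (e + 1))) ≤ 1 / 2 := by
      rw [mul_one_div, div_le_div_iff₀ (by positivity) (by positivity)]
      linarith
    exact (mul_le_mul_of_nonneg_left h1.le (Nat.cast_nonneg _)).trans h2)
  have K2 := key_two i
  have K3 : ϑ ^ Lp i * nu.real (Tset (ps i) (ee i) (Ww i + rr i) (Lp i) (zs i)) ≤
      piv (va i) (vb i) (zs i) ^ (1 - 1 / (2 * (3 : ℝ) ^ aa i)) := by
    have h1 := T_le φ c0 hφ (ps i) (by simp only [e5]; exact psi_correct_all φ c0 heq r)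
      (ee i) (Ww i + rr i) (Lp i) (zs i)
    rw [hmap] at h1
    have h2 := iid_upper q c0 (ee i) (Ww i + rr i) (Lp i) (zs i) θ ϑ _ _ hθ0 hϑ0 hϑ1.le
      (by rw [e4]; exact he.le) hu0 hu1
    have h3 : piv ((v0 : ℝ) ^ (1 - 1 / (2 * (3 : ℝ) ^ a))) ((v1 : ℝ) ^ (1 - 1 / (2 * (3 : ℝ) ^ a)))
        (zs i) = piv (va i) (vb i) (zs i) ^ (1 - 1 / (2 * (3 : ℝ) ^ aa i)) := by
      rw [e1, e2, e3]
      unfold piv
      rw [← Real.finsetProd_rpow _ _ (fun j _ => by split_ifs <;> linarith)]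
      refine Finset.prod_congr rfl fun j _ => ?_
      split_ifs <;> rfl
    rw [← h3]
    refine le_trans (mul_le_mul_of_nonneg_left ?_ (by positivity)) h2
    exact ENNReal.toReal_mono (measure_ne_top _ _) h1
  have hL := Lp_add i
  have hL2 := L_ge i
  have hpiv : 0 < piv (va i) (vb i) (zs i) :=
    Finset.prod_pos fun j _ => by rw [e2, e3]; split_ifs <;> assumption
  have hfinal := final_num (aa i) (nn i) (Lp i) _ _ (va i + vb i) ϑ _ _ (aa_pos i) (by omega) hpiv
    (wt_nonneg _ _ _) (by rw [e2, e3]; linarith) hϑ0 hϑ1.le (gamma_bounds (aa i)).1 K1 K2 K3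
  rw [e1, e2, e3, ← hρdef] at hfinal
  have hKL : K ≤ Lp i := by
    have h1 := Ww_strictMono.le_apply (x := i)
    have h2 := le_of_max_le_right hi
    omega
  have h4 : (ρ / ϑ ^ 2) ^ Lp i ≤ (ρ / ϑ ^ 2) ^ K :=
    pow_le_pow_of_le_one (by positivity) hρϑ.le hKL
  rw [lt_div_iff₀ (by positivity)] at hK
  have h5 : (4 * 9 ^ (2 * a + 1) : ℝ) * (ρ / ϑ ^ 2) ^ Lp i
      ≤ 4 * 9 ^ (2 * a + 1) * (ρ / ϑ ^ 2) ^ K := mul_le_mul_of_nonneg_left h4 (by positivity)
  linarith

theorem main : ∃ (k : ℕ) (ν : Measure (ℤ → Fin k)), IsProbabilityMeasure ν ∧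
    ν.map shift = ν ∧ (¬ ∃ y, ν = Measure.dirac y) ∧
    (∃ (m : ℕ) (p : Measure (Fin m)), IsProbabilityMeasure p ∧ IsFinitaryFactor (iid p) ν) ∧
    ∀ (m : ℕ) (q : Measure (Fin m)), IsProbabilityMeasure q → IsFinitaryFactor ν (iid q) →
      ∃ z, iid q = Measure.dirac z := by
  refine ⟨3, nu, nu_prob, nu_sh 1, nu_nontrivial, ⟨3, uu, uu_prob, nu_factor⟩, ?_⟩
  intro m q hq hf
  have hsum : ∑ c, q.real {c} = 1 := by
    rw [sum_measureReal_singleton]; simp
  obtain ⟨c0, _, hc0⟩ := Finset.exists_ne_zero_of_sum_ne_zero (s := Finset.univ)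
    (f := fun c => q.real {c}) (by rw [hsum]; exact one_ne_zero)
  have hp0 : 0 < q.real {c0} := lt_of_le_of_ne measureReal_nonneg (Ne.symm hc0)
  have hp1 : q.real {c0} = 1 := by
    by_contra hne
    exact no_factor q c0 hp0 (lt_of_le_of_ne measureReal_le_one hne) hf
  have hq1 : q = Measure.dirac c0 := by
    have h1 : q {c0} = 1 := by
      rw [← ofReal_measureReal (measure_ne_top _ _), hp1]; simp
    have h2 : ∀ᵐ c ∂q, c = c0 := by
      rw [ae_iff]
      exact (prob_compl_eq_zero_iff (measurableSet_singleton c0)).2 h1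
    calc q = q.map id := Measure.map_id.symm
      _ = q.map (fun _ => c0) := Measure.map_congr h2
      _ = Measure.dirac c0 := by simp
  refine ⟨fun _ => c0, ?_⟩
  rw [hq1]
  unfold iid
  exact Measure.infinitePi_dirac (fun _ : ℤ => c0)

end Pool.Agent.H865Z.Ffi
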